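import Pool.Agent.H48.M5.Defs

/-!
# Theorem OCS: planks with a turning fan direction (definitions)

One context. The line has a tangential position `y` and a tangential velocity `om` in dimension
two (components `0` = direction of the fans, `1` = the other direction of the plank) and a normal
velocity `be`, all in units `2 ^ (-X)`. At a time `t` the plank has the slope `S t`, the direction
of the fan of the exact point is `(1, E t)`. `N` is the normal position of the sample in the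
frame of the slope. The type `Tau` is arbitrary: `T` contains the time and the frames.
-/

set_option autoImplicit false

namespace Pool.OCS

open Finset Real
open Pool.Agent.H49.Ent Pool.Agent.H32.Dense Pool.STK Pool.KAF

/-- The data of theorem OCS. -/
structure Dat where
  Om : Type
  Lam : Type
  Tau : Type
  [fin : Fintype Om]
  P : Om → ℝ
  L : Om → Lam
  T : Om → Tau
  y : Lam → Fin 2 → ℤ
  om : Lam → Fin 2 → ℤ
  be : Lam → ℤ
  N : Om → ℤ
  th : Tau → ℝ
  S : Tau → Fin 2 → ℝ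
  E : Tau → ℝ
  X : ℕ

attribute [instance] Dat.fin

namespace Dat

variable (d : Dat)

/-- The tangential position at time zero. -/
noncomputable def yR (l : d.Lam) (j : Fin 2) : ℝ := d.y l j / 2 ^ d.X

/-- The tangential velocity. -/
noncomputable def omR (l : d.Lam) (j : Fin 2) : ℝ := d.om l j / 2 ^ d.X

/-- The normal velocity. -/
noncomputable def beR (l : d.Lam) : ℝ := d.be l / 2 ^ d.X

/-- The digits of the line. -/
def V (l : d.Lam) : (Fin 2 → ℤ) × (Fin 2 → ℤ) × ℤ := (d.y l, d.om l, d.be l)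

/-- The difference of the normal positions at the times `t₀` and `t₁` as a function of the
digits. -/
noncomputable def ZV (t₁ t₀ : d.Tau) (v : (Fin 2 → ℤ) × (Fin 2 → ℤ) × ℤ) : ℝ :=
  (d.th t₀ - d.th t₁) * (v.2.2 / 2 ^ d.X) - ∑ j, (d.S t₀ j - d.S t₁ j) * (v.1 j / 2 ^ d.X) -
    ∑ j, (d.S t₀ j * d.th t₀ - d.S t₁ j * d.th t₁) * (v.2.1 j / 2 ^ d.X)

/-- The difference of the normal positions at the times `t₀` and `t₁`. -/
noncomputable def ZR (t₁ t₀ : d.Tau) (l : d.Lam) : ℝ := d.ZV t₁ t₀ (d.V l)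

/-- The tangential position at the time `t`. -/
noncomputable def pt (t : d.Tau) (l : d.Lam) (j : Fin 2) : ℝ := d.yR l j + d.th t * d.omR l j

/-- The normal velocity relative to the plank at the time `t`. -/
noncomputable def ct (t : d.Tau) (l : d.Lam) : ℝ := d.beR l - ∑ j, d.S t j * d.omR l j

/-- The transversal velocity relative to the fan direction at the time `t`. -/
noncomputable def ka (t : d.Tau) (l : d.Lam) : ℝ := d.omR l 1 - d.E t * d.omR l 0

/-- The fan direction. -/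
noncomputable def e (t : d.Tau) : Fin 2 → ℝ := ![1, d.E t]

/-- The underlying data of the lemma on heavy rows. -/
noncomputable def toR : Pool.M5.RDat where
  Om := d.Om
  Lam := d.Lam
  Tau := d.Tau
  Nu := (Fin 2 → ℤ) × (Fin 2 → ℤ) × ℤ
  P := d.P
  L := d.L
  T := d.T
  V := d.V
  N := d.N
  ZR := d.ZV
  X := d.X

/-- The first `i` digits of the time. -/
noncomputable def Ti (i : ℕ) (ω : d.Om) : ℤ := ⌊(2 : ℝ) ^ i * d.th (d.T ω)⌋

/-- The first `s` digits of the tangential position of the sample. -/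
noncomputable def ptd (s : ℕ) (ω : d.Om) (j : Fin 2) : ℤ :=
  ⌊(2 : ℝ) ^ s * d.pt (d.T ω) (d.L ω) j⌋

/-- The first `s` digits of the tangential velocity. -/
noncomputable def omd (s : ℕ) (l : d.Lam) (j : Fin 2) : ℤ := ⌊(2 : ℝ) ^ s * d.omR l j⌋

/-- The data of the exact point which are common to the line and its mates at the time `t`, to
`p` digits. -/
noncomputable def pd (p : ℕ) (t : d.Tau) (l : d.Lam) : (Fin 2 → ℤ) × ℤ × ℤ :=
  (fun j => ⌊(2 : ℝ) ^ p * d.pt t l j⌋, ⌊(2 : ℝ) ^ p * d.ct t l⌋, ⌊(2 : ℝ) ^ p * d.ka t l⌋)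

/-- Pairs of samples on one line at the scale `i`. -/
noncomputable def Qp (i : ℕ) : d.Om × d.Om → ℝ := dbl d.P (fun ω => (d.L ω, d.Ti i ω))

/-- The basic assumptions. -/
structure OK (A : ℕ) : Prop where
  law : IsLaw d.P
  hy : ∀ ω, 0 < d.P ω → ∀ j, |d.yR (d.L ω) j| ≤ 2 ^ A
  hom : ∀ ω, 0 < d.P ω → ∀ j, |d.omR (d.L ω) j| ≤ 2 ^ A
  hbe : ∀ ω, 0 < d.P ω → |d.beR (d.L ω)| ≤ 2 ^ A
  hN : Det d.P (fun ω => (d.L ω, d.T ω)) d.N
  hth : ∀ t, 0 ≤ d.th t ∧ d.th t < 1
  hS : ∀ t j, |d.S t j| ≤ 1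
  hE : ∀ t, |d.E t| ≤ 1
  hZ : ∀ ω ω', 0 < d.P ω → 0 < d.P ω' → d.L ω = d.L ω' →
    |((d.N ω' : ℝ) - d.N ω) - 2 ^ d.X * d.ZR (d.T ω) (d.T ω') (d.L ω)| ≤ 2 ^ A

/-- (H1) the time and the frames are nearly independent of the line, the digits of the time are
full. -/
def H1 (ι : ℝ) : Prop :=
  Pool.KVA.MI d.P d.T d.L (fun _ => ()) ≤ ι * d.X ∧
  (1 - ι) * d.X * Real.log 2 ≤ CH d.P (d.Ti d.X) d.L

/-- (H3) the tangential position at the time of the sample is full given the tubes, the velocity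
is known with a lag of `lam` digits. -/
def H3 (lam : ℕ) (ι : ℝ) : Prop :=
  (2 - ι) * d.X * Real.log 2 ≤ ∑ s ∈ range d.X,
    CH d.P (d.ptd (s + 1)) (fun ω => (d.ptd s ω, d.omd (s - lam) (d.L ω), d.T ω))

/-- (H4) the velocity along the fan is active given the data of the exact point. -/
def H4 (ca : ℝ) : Prop :=
  ca * d.X * Real.log 2 ≤
    CH d.P (fun ω => d.omd d.X (d.L ω) 0) (fun ω => (d.T ω, d.pd d.X (d.T ω) (d.L ω)))

/-- (H6) the slope is not constant on a line at any visible precision. -/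
def H6 (x₀ ε : ℝ) : Prop :=
  Pr (dbl d.P d.L) {w | ‖d.S (d.T w.1) - d.S (d.T w.2)‖ < (2 : ℝ) ^ (-(x₀ * d.X))} ≤ ε

/-- (H7) the direction of the fans is not constant on a line at any visible precision. -/
def H7 (x₀ ε : ℝ) : Prop :=
  Pr (dbl d.P d.L) {w | |d.E (d.T w.1) - d.E (d.T w.2)| < (2 : ℝ) ^ (-(x₀ * d.X))} ≤ ε

/-! ### pairs and triples -/

/-- The difference of the slopes at the times of a pair. -/
noncomputable def sg (w : d.Om × d.Om) (j : Fin 2) : ℝ := d.S (d.T w.2) j - d.S (d.T w.1) j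

/-- The difference of the times of a pair. -/
noncomputable def ta (w : d.Om × d.Om) : ℝ := d.th (d.T w.2) - d.th (d.T w.1)

/-- The difference quotient. -/
noncomputable def ch (w : d.Om × d.Om) (j : Fin 2) : ℝ := d.sg w j / d.ta w

/-- A pair at the scale `j` and a partner of its first sample at the scale `i`. -/
noncomputable def Q3 (j i : ℕ) : (d.Om × d.Om) × d.Om → ℝ :=
  glue (d.Qp j) d.P (fun w => (d.L w.1, d.Ti i w.1)) (fun ω => (d.L ω, d.Ti i ω))

/-- The scales in `[i₀, 2 n)` at which the difference quotient of a partner of the first sample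
is not near the one of the pair. -/
noncomputable def fs (i₀ n : ℕ) (w : d.Om × d.Om) (a : ℝ) : ℝ :=
  ∑ i ∈ Ico i₀ (2 * n), Pr (cond d.P (fun ω => (d.L ω, d.Ti i ω)) (d.L w.1, d.Ti i w.1))
    {ω | a < ‖d.ch (w.1, ω) - d.ch w‖}

/-- The form of the pair divided by the time difference. -/
noncomputable def us (w : d.Om × d.Om) : ℝ := d.ZR (d.T w.1) (d.T w.2) (d.L w.1) / d.ta w

/-- The cells of stage A: base `w.1`, reference `w.2`, lag `lam` of the velocity. -/
noncomputable def GS (mu : d.Om × d.Om → ℤ) (lam s : ℕ) (w : d.Om × d.Om) :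
    d.Tau × d.Tau × ℤ × (Fin 2 → ℤ) × (Fin 2 → ℤ) × ℤ :=
  (d.T w.1, d.T w.2, mu w, d.ptd s w.1, d.omd (s - lam) (d.L w.1),
    ⌊(2 : ℝ) ^ ((s : ℤ) + mu w) * d.us w⌋)

/-- The cells of the mates at the time of `w.2`, with a label `c` of the pairs. The precision of
the data of the point is `X` for `s < X - 8 n`. -/
noncomputable def GM (c : d.Om × d.Om → ℤ) (n s : ℕ) (w : d.Om × d.Om) :
    d.Tau × d.Tau × ℤ × ((Fin 2 → ℤ) × ℤ × ℤ) × ℤ :=
  (d.T w.1, d.T w.2, c w, d.pd (max d.X (s + 8 * n)) (d.T w.2) (d.L w.1), d.omd s (d.L w.1) 0)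

/-- The cells of the mates of a sample. -/
noncomputable def GK (s : ℕ) (ω : d.Om) : d.Tau × ((Fin 2 → ℤ) × ℤ × ℤ) × ℤ :=
  (d.T ω, d.pd d.X (d.T ω) (d.L ω), d.omd s (d.L ω) 0)

/-- Labels of pairs: functions of the line and of the two times. -/
def Lb (c : d.Om × d.Om → ℤ) : Prop :=
  ∀ w w', d.L w.1 = d.L w'.1 → d.T w.1 = d.T w'.1 → d.T w.2 = d.T w'.2 → c w = c w'

end Dat

/-- **Theorem OCS.** -/
def OCSStmt : Prop :=
  ∀ (A : ℕ) (c ca : ℝ), 0 < c → 0 < ca → ∃ (x₀ lm κ π₀ ι ε : ℝ) (X₀ : ℕ), 0 < x₀ ∧ 0 < lm ∧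
    0 < κ ∧ κ ≤ 1 ∧ 0 < π₀ ∧ 0 < ι ∧ 0 < ε ∧ ∀ (d : Dat) (lam : ℕ), d.OK A → X₀ ≤ d.X →
      (lam : ℝ) ≤ lm * d.X → d.H1 ι → d.toR.H2 ι → d.H3 lam ι → d.H4 ca → d.toR.H5 c κ π₀ ∅ → d.H6 x₀ ε → d.H7 x₀ ε → False

end Pool.OCS
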