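import Pool.Agent.H88.OCS.Defs

/-!
# Theorem OCS: the rows

`n = κ₂ X`; the depths `s` run in `[8 n, X - 8 n)`, the scales of the partners in `[0, 2 n)`.
The argument is an induction over finitely many levels `m` (integers in `[- 4 n - 2, n]`, steps
`n / 20`): at the level `m` the difference quotient of `S` is at most `2 ^ (-m)` for most pairs
at the scales in `[n / 16, 2 n)` with base in the set of the active samples.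
`mu` is the label of a pair (base, reference): minus the logarithm of the typical distance of the
difference quotients of the partners of the base at the scales `≥ i₀` from the one of the
reference. `Λ` is the difference quotient at the base.
-/

set_option autoImplicit false

namespace Pool.OCS

open Finset Real
open Pool.Agent.H49.Ent Pool.Agent.H32.Dense Pool.STK Pool.KAF

/-! ### properties -/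

/-- Sizes. -/
structure Siz (d : Dat) (n h : ℕ) (m : ℤ) : Prop where
  h1 : 1 ≤ h
  hn : 1024 * h ≤ n
  nX : 64 * n ≤ d.X
  m1 : -(4 * n + 2 : ℤ) ≤ m
  m2 : m ≤ 2 * n

/-- The label of the pairs; `lam` is the lag of the velocity. -/
structure LabS (d : Dat) (n i₀ k₆ lam : ℕ) (m : ℤ) (mu : d.Om × d.Om → ℤ) : Prop where
  det : d.Lb mu
  lo : ∀ w, -(8 * n : ℤ) ≤ mu w
  hi : ∀ w, mu w + k₆ + lam ≤ m + i₀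

/-- RowS: the forms of the pairs do not hit the heavy rows of the base; cells of stage A. -/
def RowS (d : Dat) (J : d.Om → Set ℕ) (mu : d.Om × d.Om → ℤ) (lam n j k k₁ : ℕ) (e : ℝ) : Prop :=
  ∀ i < 4 * n, ∀ (q : ℤ → d.Tau → d.Tau → d.Tau → ℤ)
    (W : Set (ℤ × d.Tau × d.Tau × d.Tau)),
    (∀ u v s, 0 < d.Q3 j i u → 0 < d.Qp j v → (mu u.1, d.T u.1.1, d.T u.1.2, d.T u.2) ∈ W →
      8 * n ≤ s → d.GS mu lam s v = d.GS mu lam s u.1 →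
      |d.ZR (d.T u.1.1) (d.T u.2) (d.L u.1.1) - d.ZR (d.T u.1.1) (d.T u.2) (d.L v.1)| ≤
        (2 : ℝ) ^ ((k : ℤ) - (s + q (mu u.1) (d.T u.1.1) (d.T u.1.2) (d.T u.2)))) →
    ∑ s ∈ Finset.Ico (8 * n) (d.X - 8 * n), Ex (d.Q3 j i) (Set.indicator
      {u | (mu u.1, d.T u.1.1, d.T u.1.2, d.T u.2) ∈ W ∧
        0 ≤ (s : ℤ) + q (mu u.1) (d.T u.1.1) (d.T u.1.2) (d.T u.2) ∧
        ((s : ℤ) + q (mu u.1) (d.T u.1.1) (d.T u.1.2) (d.T u.2)).toNat ∈ J u.1.1}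
      (fun u => Pr (cond (d.Qp j) (d.GS mu lam s) (d.GS mu lam s u.1))
        {v | (2 : ℝ) ^
          (-((s : ℤ) + q (mu u.1) (d.T u.1.1) (d.T u.1.2) (d.T u.2) + k₁)) ≤
          |d.ZR (d.T u.1.1) (d.T u.2) (d.L u.1.1) -
            d.ZR (d.T u.1.1) (d.T u.2) (d.L v.1)|})) ≤ e * d.X

/-- RowS0: the same for the form of the pair (base, reference) itself. -/
def RowS0 (d : Dat) (J : d.Om → Set ℕ) (mu : d.Om × d.Om → ℤ) (lam n j k k₁ : ℕ) (e : ℝ) : Prop :=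
  ∀ (q : ℤ → d.Tau → d.Tau → ℤ) (W : Set (ℤ × d.Tau × d.Tau)),
    (∀ u v s, 0 < d.Qp j u → 0 < d.Qp j v → (mu u, d.T u.1, d.T u.2) ∈ W →
      8 * n ≤ s → d.GS mu lam s v = d.GS mu lam s u →
      |d.ZR (d.T u.1) (d.T u.2) (d.L u.1) - d.ZR (d.T u.1) (d.T u.2) (d.L v.1)| ≤
        (2 : ℝ) ^ ((k : ℤ) - (s + q (mu u) (d.T u.1) (d.T u.2)))) →
    ∑ s ∈ Finset.Ico (8 * n) (d.X - 8 * n), Ex (d.Qp j) (Set.indicator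
      {u | (mu u, d.T u.1, d.T u.2) ∈ W ∧ 0 ≤ (s : ℤ) + q (mu u) (d.T u.1) (d.T u.2) ∧
        ((s : ℤ) + q (mu u) (d.T u.1) (d.T u.2)).toNat ∈ J u.1}
      (fun u => Pr (cond (d.Qp j) (d.GS mu lam s) (d.GS mu lam s u))
        {v | (2 : ℝ) ^ (-((s : ℤ) + q (mu u) (d.T u.1) (d.T u.2) + k₁)) ≤
          |d.ZR (d.T u.1) (d.T u.2) (d.L u.1) -
            d.ZR (d.T u.1) (d.T u.2) (d.L v.1)|})) ≤ e * d.X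

/-- RowM: the same for the cells of the mates; `c` is a label of the pairs. -/
def RowM (d : Dat) (J : d.Om → Set ℕ) (c : d.Om × d.Om → ℤ) (n j k k₁ : ℕ) (e : ℝ) : Prop :=
  ∀ i < 4 * n, ∀ (q : ℤ → d.Tau → d.Tau → d.Tau → ℤ)
    (W : Set (ℤ × d.Tau × d.Tau × d.Tau)),
    (∀ u v s, 0 < d.Q3 j i u → 0 < d.Qp j v → (c u.1, d.T u.1.1, d.T u.1.2, d.T u.2) ∈ W →
      8 * n ≤ s → d.GM c n s v = d.GM c n s u.1 →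
      |d.ZR (d.T u.1.1) (d.T u.2) (d.L u.1.1) - d.ZR (d.T u.1.1) (d.T u.2) (d.L v.1)| ≤
        (2 : ℝ) ^ ((k : ℤ) - (s + q (c u.1) (d.T u.1.1) (d.T u.1.2) (d.T u.2)))) →
    ∑ s ∈ Finset.Ico (8 * n) (d.X - 8 * n), Ex (d.Q3 j i) (Set.indicator
      {u | (c u.1, d.T u.1.1, d.T u.1.2, d.T u.2) ∈ W ∧
        0 ≤ (s : ℤ) + q (c u.1) (d.T u.1.1) (d.T u.1.2) (d.T u.2) ∧
        ((s : ℤ) + q (c u.1) (d.T u.1.1) (d.T u.1.2) (d.T u.2)).toNat ∈ J u.1.1}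
      (fun u => Pr (cond (d.Qp j) (d.GM c n s) (d.GM c n s u.1))
        {v | (2 : ℝ) ^ (-((s : ℤ) + q (c u.1) (d.T u.1.1) (d.T u.1.2) (d.T u.2) + k₁)) ≤
          |d.ZR (d.T u.1.1) (d.T u.2) (d.L u.1.1) -
            d.ZR (d.T u.1.1) (d.T u.2) (d.L v.1)|})) ≤ e * d.X

/-- Time distances at macroscopic distances of the scales. -/
def TA (d : Dat) (g : ℕ) (ε : ℝ) : Prop :=
  ∀ i i' : ℕ, i + g ≤ i' → i' ≤ d.X → Pr (d.Qp i) {w | |d.ta w| < (2 : ℝ) ^ (-(i' : ℤ))} ≤ ε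

/-- Time distances at most scales. -/
def TB (d : Dat) (g k' : ℕ) (ε : ℝ) : Prop :=
  ∀ a b : ℕ, a + g ≤ b → b ≤ d.X →
    ∑ i ∈ Finset.Ico a b, Pr (d.Qp i) {w | |d.ta w| < (2 : ℝ) ^ (-((i : ℤ) + k'))} ≤
      ε * ((b : ℝ) - a)

/-- The good references at the scale `j`: a function of the two times. -/
def Bg (d : Dat) (j k' : ℕ) (m : ℤ) : Set (d.Om × d.Om) :=
  {w | ‖d.sg w‖ ≤ (2 : ℝ) ^ (-m) * |d.ta w| ∧ (2 : ℝ) ^ (-((j : ℤ) + k')) ≤ |d.ta w|}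

/-- The tangential position is spread in the cells of stage A, in all directions. -/
def SPS (d : Dat) (m : ℤ) (mu : d.Om × d.Om → ℤ) (lam n j k' a : ℕ) (ε : ℝ) : Prop :=
  ∃ M : ℕ → d.Om × d.Om → ℝ, (∀ s w, 0 ≤ M s w) ∧
    (∀ s w w', d.GS mu lam s w = d.GS mu lam s w' → M s w = M s w') ∧
    (∀ s ∈ Finset.Ico (8 * n) (d.X - 8 * n), ∀ w, 0 < d.Qp j w → w ∈ Bg d j k' m →
      ∀ ξ : Fin 2 → ℝ, 0 < ‖ξ‖ → Pr (cond (d.Qp j) (d.GS mu lam s) (d.GS mu lam s w))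
        {v | |∑ r, ξ r * (d.pt (d.T w.1) (d.L v.1) r - d.pt (d.T w.1) (d.L w.1) r)| <
          ‖ξ‖ * (2 : ℝ) ^ (-((s : ℤ) + a))} ≤ M s w) ∧
    ∑ s ∈ Finset.Ico (8 * n) (d.X - 8 * n), Ex (d.Qp j) (Set.indicator (Bg d j k' m) (M s)) ≤
      ε * d.X

/-- No partners far from the reference (at most scales). -/
def NLS (d : Dat) (m : ℤ) (mu : d.Om × d.Om → ℤ) (n i₀ j k' a : ℕ) (ε : ℝ) : Prop :=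
  ∑ i ∈ Finset.Ico i₀ (2 * n), Pr (d.Q3 j i) {u | u.1 ∈ Bg d j k' m ∧
    (2 : ℝ) ^ ((a : ℤ) + 4 - mu u.1) < ‖d.ch (u.1.1, u.2) - d.ch u.1‖} ≤ ε * n

/-- The partners agree with the reference up to `2 ^ (- mu - k₅)`. -/
def AGP (d : Dat) (m : ℤ) (mu : d.Om × d.Om → ℤ) (n i₀ j k' k₅ : ℕ) (ε : ℝ) : Prop :=
  ∑ i ∈ Finset.Ico i₀ (2 * n), Pr (d.Q3 j i) {u | u.1 ∈ Bg d j k' m ∧
    (2 : ℝ) ^ (-(mu u.1 + k₅)) < ‖d.ch (u.1.1, u.2) - d.ch u.1‖} ≤ ε * n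

/-- The activity of the velocity along the fan in the cells of the mates of a sample. -/
noncomputable def aS (d : Dat) (b s : ℕ) (ω : d.Om) : ℝ :=
  Pr (cond d.P (d.GK s) (d.GK s ω))
    {ω' | (2 : ℝ) ^ (-((s : ℤ) + b)) ≤ |d.omR (d.L ω') 0 - d.omR (d.L ω) 0|}

/-- The same for the pairs, mates of the second sample. -/
noncomputable def aM (d : Dat) (c : d.Om × d.Om → ℤ) (n j b s : ℕ) (w : d.Om × d.Om) : ℝ :=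
  Pr (cond (d.Qp j) (d.GM c n s) (d.GM c n s w))
    {v | (2 : ℝ) ^ (-((s : ℤ) + b)) ≤ |d.omR (d.L v.1) 0 - d.omR (d.L w.1) 0|}

/-- The active samples. -/
def Act (d : Dat) (n b : ℕ) (c₃ : ℝ) : Set d.Om :=
  {ω | c₃ * d.X ≤ ∑ s ∈ Finset.Ico (8 * n) (d.X - 8 * n), aS d b s ω}

/-- The bound at the level `m` for the pairs with base in `G`. -/
def BND (d : Dat) (G : Set d.Om) (m : ℤ) (n : ℕ) (ε : ℝ) : Prop :=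
  ∑ i ∈ Finset.Ico (n / 16) (2 * n), Pr (d.Qp i)
    {w | w.1 ∈ G ∧ (2 : ℝ) ^ (-m) * |d.ta w| < ‖d.sg w‖} ≤ ε * n

/-- `Λ` is the difference quotient at the base up to `2 ^ (k - m - i₀)`, for most partners at
scales `≥ i₀`. The number `k` contains the lag. -/
def AGS (d : Dat) (G : Set d.Om) (m : ℤ) (n i₀ k : ℕ) (Λ : d.Om → Fin 2 → ℝ) (ε : ℝ) : Prop :=
  ∑ i ∈ Finset.Ico i₀ (2 * n), Pr (d.Qp i)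
    {w | w.1 ∈ G ∧ (2 : ℝ) ^ ((k : ℤ) - m - i₀) * |d.ta w| <
      ‖fun r => d.sg w r - d.ta w * Λ w.1 r‖} ≤ ε * n

/-- The relation of the mates for the pairs at the scale `j`. -/
def MAT (d : Dat) (G : Set d.Om) (m : ℤ) (n : ℕ) (Λ : d.Om → Fin 2 → ℝ) (j : ℕ) (ε : ℝ) :
    Prop :=
  Pr (d.Qp j) {w | w.1 ∈ G ∧ w.2 ∈ G ∧ (2 : ℝ) ^ (-(m + (3 * n / 8 : ℕ))) * |d.ta w| <
    |∑ r, (d.sg w r + d.ta w * Λ w.1 r) * d.e (d.T w.2) r|} ≤ ε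

/-! ### the rows -/

/-- TIM: time distances from (H1). -/
def TIMStmt : Prop :=
  ∀ ε : ℝ, 0 < ε → ∃ k' : ℕ, ∀ κ₃ : ℝ, 0 < κ₃ → ∃ (ι : ℝ) (X₀ : ℕ), 0 < ι ∧
    ∀ (d : Dat) (A : ℕ), d.OK A → X₀ ≤ d.X → d.H1 ι →
      TA d ⌊κ₃ * d.X⌋₊ ε ∧ TB d ⌊κ₃ * d.X⌋₊ k' ε

/-- QNS: the label of the pairs (the largest number which is possible). -/
def QNSStmt : Prop :=
  ∀ (d : Dat) (A n i₀ j k₆ lam : ℕ) (m : ℤ) (d₁ ε : ℝ), d.OK A → 1 ≤ n → 0 < d₁ → d₁ ≤ 1 →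
    i₀ ≤ n → j < 2 * n → k₆ + lam ≤ n → -(4 * n + 2 : ℤ) ≤ m → m ≤ 2 * n →
    (∀ i < 2 * n, Pr (d.Qp i) {w | |d.ta w| < (2 : ℝ) ^ (-(3 * n : ℤ))} ≤ ε) →
    ∃ mu : d.Om × d.Om → ℤ, LabS d n i₀ k₆ lam m mu ∧
      Pr (d.Qp j) {w | d₁ * n < d.fs i₀ n w ((2 : ℝ) ^ (1 - mu w))} ≤ 4 * ε / d₁ ∧
      ∀ w, 0 < d.Qp j w → mu w + k₆ + lam < m + i₀ → d₁ * n < d.fs i₀ n w ((2 : ℝ) ^ (-mu w))

/-- RWS: RowS and RowS0 from RowOK. -/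
def RWSStmt : Prop :=
  ∀ (d : Dat) (A : ℕ) (J : d.Om → Set ℕ) (mu : d.Om × d.Om → ℤ)
    (lam n j k k₁ : ℕ) (e δ ι : ℝ), d.OK A → d.H1 ι → 3 * ι ≤ δ → d.Lb mu →
    (∀ w, |mu w| ≤ 64 * d.X) → Real.log (200 * (d.X + 1)) ≤ δ * d.X →
    d.toR.RowOK J k k₁ 64 e δ → RowS d J mu lam n j k k₁ e ∧ RowS0 d J mu lam n j k k₁ e

/-- RWM: RowM from RowOK. -/
def RWMStmt : Prop :=
  ∀ (d : Dat) (A : ℕ) (J : d.Om → Set ℕ) (c : d.Om × d.Om → ℤ) (n j k k₁ : ℕ) (e δ ι : ℝ),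
    d.OK A → d.H1 ι → 3 * ι ≤ δ → d.Lb c → (∀ w, |c w| ≤ 64 * d.X) →
    Real.log (200 * (d.X + 1)) ≤ δ * d.X → d.toR.RowOK J k k₁ 64 e δ → RowM d J c n j k k₁ e

/-- SPS: the telescope and the spread (TEL2, SPR2). -/
def SPSStmt : Prop :=
  ∀ u ε₄ : ℝ, 0 < u → u ≤ 1 → 0 < ε₄ → ∃ (a : ℕ) (κ₂ ε₈ e₀ : ℝ), 1 ≤ a ∧ 0 < κ₂ ∧ 0 < ε₈ ∧
    0 < e₀ ∧ ∀ A k' : ℕ, ∃ k₁₀ n₀ k₆₀ : ℕ, ∀ (d : Dat) (J : d.Om → Set ℕ) (m : ℤ)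
      (mu : d.Om × d.Om → ℤ) (n h g i₀ k₆ lam j k k₁ : ℕ) (e : ℝ), d.OK A → Siz d n h m →
      n₀ ≤ n → (n : ℝ) ≤ κ₂ * d.X → 64 * g ≤ n → 64 * lam ≤ n → n / 16 ≤ i₀ → i₀ ≤ n → n ≤ j → j < 2 * n →
      k₆₀ ≤ k₆ → LabS d n i₀ k₆ lam m mu → 5 ≤ k → k₁₀ ≤ k₁ → e ≤ e₀ →
      RowS d J mu lam n j k k₁ e → RowS0 d J mu lam n j k k₁ e → d.toR.J1 J h u ε₈ ∅ →
      Pr (d.Qp j) {w | u / 64 * n < d.fs i₀ n w ((2 : ℝ) ^ (1 - mu w))} ≤ ε₈ →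
      TB d g k' ε₈ → d.H1 ε₈ → d.H3 lam ε₈ → SPS d m mu lam n j k' a ε₄

/-- NLS (helper43's R2). -/
def NLSStmt : Prop :=
  ∀ u ε₉ : ℝ, 0 < u → u ≤ 1 → 0 < ε₉ → ∃ ε₈ : ℝ, 0 < ε₈ ∧ ∀ A a k' : ℕ,
    ∃ (k₁₀ n₀ k₆₀ : ℕ) (e₀ : ℝ), 0 < e₀ ∧ ∀ (d : Dat) (J : d.Om → Set ℕ) (m : ℤ)
      (mu : d.Om × d.Om → ℤ) (n h g i₀ k₆ lam j k k₁ : ℕ) (e : ℝ), d.OK A → Siz d n h m →
      n₀ ≤ n → 64 * g ≤ n → 64 * lam ≤ n → n / 16 ≤ i₀ → i₀ ≤ n → n ≤ j → j < 2 * n → k₆₀ ≤ k₆ →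
      LabS d n i₀ k₆ lam m mu → 8 ≤ k → k₁₀ ≤ k₁ → e ≤ e₀ →
      RowS d J mu lam n j k k₁ e → d.toR.J1 J h u ε₈ ∅ → SPS d m mu lam n j k' a ε₈ →
      TB d g k' ε₈ → NLS d m mu n i₀ j k' a ε₉

/-- GRS: the difference quotients of the partners at all scales agree with the one of the
reference. -/
def GRSStmt : Prop :=
  ∀ u ε₉ : ℝ, 0 < u → u ≤ 1 → 0 < ε₉ → ∃ ε₈ : ℝ, 0 < ε₈ ∧ ∀ A a k' k₅ : ℕ,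
    ∃ (k₁₀ n₀ k₆₀ : ℕ) (e₀ : ℝ), 0 < e₀ ∧ ∀ (d : Dat) (J : d.Om → Set ℕ) (m : ℤ)
      (mu : d.Om × d.Om → ℤ) (n h g i₀ k₆ lam j k k₁ : ℕ) (e : ℝ), d.OK A → Siz d n h m →
      n₀ ≤ n → 64 * g ≤ n → 64 * lam ≤ n → n / 16 ≤ i₀ → i₀ ≤ n → n ≤ j → j < 2 * n → k₆₀ ≤ k₆ →
      LabS d n i₀ k₆ lam m mu → a + 12 ≤ k → k₁₀ ≤ k₁ → e ≤ e₀ →
      RowS d J mu lam n j k k₁ e → RowS0 d J mu lam n j k k₁ e → d.toR.J1 J h u ε₈ ∅ →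
      SPS d m mu lam n j k' a ε₈ → NLS d m mu n i₀ j k' a ε₈ → TB d g k' ε₈ →
      AGP d m mu n i₀ j k' k₅ ε₉

/-- STA: stage A, assembly of QNS, SPS, NLS, GRS. -/
def STAStmt : Prop :=
  ∀ u ε₁₀ : ℝ, 0 < u → u ≤ 1 → 0 < ε₁₀ → ∃ (κ₂ ε₈ : ℝ), 0 < κ₂ ∧ 0 < ε₈ ∧
    ∀ A k' : ℕ, ∃ (k₀ k₅ k₁₀ n₀ : ℕ) (e₀ : ℝ), 0 < e₀ ∧ ∀ (d : Dat)
      (J : d.Om → Set ℕ) (G : Set d.Om) (m : ℤ) (n h g lam k k₁ : ℕ) (e ε : ℝ), d.OK A →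
      Siz d n h m → n₀ ≤ n → (n : ℝ) ≤ κ₂ * d.X → 64 * g ≤ n → 64 * lam ≤ n → k₀ ≤ k → k₁₀ ≤ k₁ → e ≤ e₀ →
      (∀ (mu : d.Om × d.Om → ℤ) (j : ℕ), d.Lb mu → (∀ w, |mu w| ≤ 64 * d.X) →
        RowS d J mu lam n j k k₁ e ∧ RowS0 d J mu lam n j k k₁ e) →
      d.toR.J1 J h u ε₈ ∅ → TA d g ε₈ → TB d g k' ε₈ → d.H1 ε₈ → d.H3 lam ε₈ →
      (∀ ω ω', d.L ω = d.L ω' → d.T ω = d.T ω' → (ω ∈ G ↔ ω' ∈ G)) → BND d G m n ε →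
      ∃ Λ : d.Om → Fin 2 → ℝ, (∀ ω ω', d.L ω = d.L ω' → d.T ω = d.T ω' → Λ ω = Λ ω') ∧
        Pr d.P {ω | ω ∈ G ∧ (2 : ℝ) ^ (-m) < ‖Λ ω‖} ≤ 16 * ε + ε₁₀ ∧
        AGS d G m n (n / 16) (k₅ + lam) Λ (16 * ε + ε₁₀) ∧
        AGS d G m n (n / 4) (k₅ + lam) Λ (16 * ε + ε₁₀) ∧
        AGS d G m n n (k₅ + lam) Λ (16 * ε + ε₁₀)

/-- ACL: many samples are active. -/
def ACLStmt : Prop :=
  ∀ ca : ℝ, 0 < ca → ∃ (b : ℕ) (c₃ κ₂ : ℝ), 0 < c₃ ∧ 0 < κ₂ ∧ ∀ A : ℕ, ∃ X₀ : ℕ,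
    ∀ (d : Dat) (n : ℕ), d.OK A → X₀ ≤ d.X → (n : ℝ) ≤ κ₂ * d.X → d.H4 ca →
      c₃ ≤ Pr d.P (Act d n b c₃)

/-- ACM: they are active in the cells of the mates of the pairs. -/
def ACMStmt : Prop :=
  ∀ (b : ℕ) (ε : ℝ), 0 < ε → ∃ (ι : ℝ) (X₀ : ℕ), 0 < ι ∧ ∀ (d : Dat) (A n j : ℕ)
    (c : d.Om × d.Om → ℤ), d.OK A → X₀ ≤ d.X → 64 * n ≤ d.X → d.H1 ι → d.Lb c →
    (∀ w, |c w| ≤ 64 * d.X) →
    ∑ s ∈ Finset.Ico (8 * n) (d.X - 8 * n),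
      Ex (d.Qp j) (fun w => max 0 (aS d b s w.2 - aM d c n j (b + 2) s w)) ≤ ε * d.X

/-- MAT: the relation of the mates (MLE, HIT). -/
def MATStmt : Prop :=
  ∀ (u c₃ ε₉ : ℝ), 0 < u → u ≤ 1 → 0 < c₃ → 0 < ε₉ → ∃ (C ε₈ : ℝ), 0 < C ∧ 0 < ε₈ ∧
    ∀ A b k' k₅ : ℕ, ∃ (k₁₀ n₀ : ℕ) (e₀ : ℝ), 0 < e₀ ∧ ∀ (d : Dat) (J : d.Om → Set ℕ) (m : ℤ)
      (n h g lam j k k₁ : ℕ) (e ε : ℝ) (Λ : d.Om → Fin 2 → ℝ), d.OK A → Siz d n h m →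
      n₀ ≤ n → 64 * g ≤ n → 64 * lam ≤ n → j ≤ n / 2 → 8 ≤ k → k₁₀ ≤ k₁ → e ≤ e₀ →
      (∀ c : d.Om × d.Om → ℤ, d.Lb c → (∀ w, |c w| ≤ 64 * d.X) → RowM d J c n j k k₁ e ∧
        ∑ s ∈ Finset.Ico (8 * n) (d.X - 8 * n),
          Ex (d.Qp j) (fun w => max 0 (aS d b s w.2 - aM d c n j (b + 2) s w)) ≤ ε₈ * d.X) →
      d.toR.J1 J h u ε₈ ∅ → TA d g ε₈ → TB d g k' ε₈ →
      (∀ ω ω', d.L ω = d.L ω' → d.T ω = d.T ω' → Λ ω = Λ ω') →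
      AGS d (Act d n b c₃) m n n (k₅ + lam) Λ ε →
      Pr d.P {ω | ω ∈ Act d n b c₃ ∧ (2 : ℝ) ^ (-m) < ‖Λ ω‖} ≤ ε →
      MAT d (Act d n b c₃) m n Λ j (C * ε + ε₉)

/-- FIN: one level; `G` is the set of the active samples. -/
def FINStmt : Prop :=
  ∀ ε' : ℝ, 0 < ε' → ∃ ε : ℝ, 0 < ε ∧ ∀ A k₅ : ℕ, ∃ (n₀ : ℕ), ∀ (d : Dat) (G : Set d.Om)
    (m : ℤ) (n h g lam : ℕ) (x₀ : ℝ) (Λ : d.Om → Fin 2 → ℝ), d.OK A → Siz d n h m → n₀ ≤ n →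
    512 * g ≤ n → 512 * lam ≤ n → 512 * (x₀ * d.X) ≤ n → TA d g ε →
    (∀ ω ω', d.L ω = d.L ω' → d.T ω = d.T ω' → (ω ∈ G ↔ ω' ∈ G)) →
    (∀ ω ω', d.L ω = d.L ω' → d.T ω = d.T ω' → Λ ω = Λ ω') →
    Pr d.P {ω | ω ∈ G ∧ (2 : ℝ) ^ (-m) < ‖Λ ω‖} ≤ ε →
    AGS d G m n (n / 16) (k₅ + lam) Λ ε → AGS d G m n (n / 4) (k₅ + lam) Λ ε →
    (∀ j, j ≤ n / 2 → MAT d G m n Λ j ε) → d.H7 x₀ ε →
    BND d G (m + (n / 20 : ℕ)) n ε' ∧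
      Pr (dbl d.P d.L) {w | w.1 ∈ G ∧ w.2 ∈ G ∧
        (2 : ℝ) ^ (-(m + (n / 20 : ℕ)) + 1) < ‖d.S (d.T w.1) - d.S (d.T w.2)‖} ≤ ε'

end Pool.OCS
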