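import Pool.Agent.H88.OCS.Defs
import Pool.Agent.H59.OC.OCB

/-!
# Theorem OCS for real random variables, in the mean over the context: statement
-/

set_option autoImplicit false

namespace Pool.K2S

open Finset Real
open Pool.Agent.H49.Ent Pool.Agent.H32.Dense Pool.STK Pool.KA

/-- The data of theorem OCS with real variables. `b` is the context, `B` bounds the logarithm of
the slopes. -/
structure OCSData {Ω β Λ Θ : Type} [Fintype Ω] (B : ℕ) (p : Ω → ℝ) (b : Ω → β) (L : Ω → Λ)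
    (T : Ω → Θ) (y om : Fin 2 → Ω → ℝ) (be m0 th : Ω → ℝ) (S : Fin 2 → Ω → ℝ) (E nu : Ω → ℝ) :
    Prop where
  law : IsLaw p
  dy : ∀ j, Det p (fun ω => (b ω, L ω)) (y j)
  dom : ∀ j, Det p (fun ω => (b ω, L ω)) (om j)
  dbe : Det p (fun ω => (b ω, L ω)) be
  dm0 : Det p (fun ω => (b ω, L ω)) m0
  dth : Det p (fun ω => (b ω, T ω)) th
  dS : ∀ j, Det p (fun ω => (b ω, T ω)) (S j)
  dE : Det p (fun ω => (b ω, T ω)) E
  hy : ∀ j ω, 0 < p ω → 0 ≤ y j ω ∧ y j ω < 1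
  hom : ∀ j ω, 0 < p ω → 0 ≤ om j ω ∧ om j ω < 1
  hbe : ∀ ω, 0 < p ω → 0 ≤ be ω ∧ be ω < 1
  hth : ∀ ω, 0 < p ω → 0 ≤ th ω ∧ th ω < 1
  hS : ∀ j ω, 0 < p ω → |S j ω| ≤ 2 ^ B
  hE : ∀ ω, 0 < p ω → |E ω| ≤ 2 ^ B
  hnu : ∀ ω, 0 < p ω → nu ω = m0 ω + th ω * be ω - ∑ j, S j ω * (y j ω + th ω * om j ω)

namespace Ocs

variable {Ω : Type}

/-- The tangential position at the time of the sample. -/
noncomputable def yt (y om : Fin 2 → Ω → ℝ) (th : Ω → ℝ) (j : Fin 2) (ω : Ω) : ℝ :=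
  y j ω + th ω * om j ω

/-- The normal velocity relative to the plank. -/
noncomputable def cc (om : Fin 2 → Ω → ℝ) (be : Ω → ℝ) (S : Fin 2 → Ω → ℝ) (ω : Ω) : ℝ :=
  be ω - ∑ j, S j ω * om j ω

/-- The transversal velocity relative to the direction of the fan. -/
noncomputable def kk (om : Fin 2 → Ω → ℝ) (E : Ω → ℝ) (ω : Ω) : ℝ := om 1 ω - E ω * om 0 ω

/-- The digits of two real variables. -/
noncomputable def dg2 (X : ℕ) (y : Fin 2 → Ω → ℝ) (ω : Ω) : ℤ × ℤ :=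
  (Uni.dg X (y 0) ω, Uni.dg X (y 1) ω)

end Ocs

open Ocs in
/-- **(OCSB)** Theorem OCS for one law, in the mean over the values of the context `b`. The
hypothesis on the tangential position is in tiles of length `t ≤ lam`. -/
def OCSBStmt : Prop :=
  ∀ (B : ℕ) (c ca : ℝ), 0 < c → 0 < ca → ∃ (x₀ lm κ ϖ ι ε : ℝ) (X₀ t₀ : ℕ), 0 < x₀ ∧ 0 < lm ∧
    0 < κ ∧ κ ≤ 1 ∧ 0 < ϖ ∧ 0 < ι ∧ 0 < ε ∧
    ∀ (Ω β Λ Θ : Type) [Fintype Ω] (p : Ω → ℝ) (b : Ω → β) (L : Ω → Λ) (T : Ω → Θ)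
      (y om : Fin 2 → Ω → ℝ) (be m0 th : Ω → ℝ) (S : Fin 2 → Ω → ℝ) (E nu : Ω → ℝ) (X t : ℕ),
      OCSData B p b L T y om be m0 th S E nu → X₀ ≤ X → t₀ ≤ t → (t : ℝ) ≤ lm * X →
      Pool.KVA.MI p T L b ≤ ι * X →
      (1 - ι) * X * Real.log 2 ≤ CH p (Uni.dg X th) (fun ω => (L ω, b ω)) →
      CH p (Uni.dg X nu) (fun ω => (b ω, T ω)) -
        CH p (Uni.dg X nu) (fun ω => ((dg2 X y ω, (dg2 X om ω, Uni.dg X be ω)),
          (b ω, T ω))) ≤ ι * X →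
      (2 - ι) * X * Real.log 2 ≤ ∑ r ∈ range (X / t),
        CH p (dg2 ((r + 1) * t) (yt y om th))
          (fun ω => (dg2 (r * t) (yt y om th) ω, (dg2 (r * t) om ω, (b ω, T ω)))) →
      ca * X * Real.log 2 ≤ CH p (Uni.dg X (om 0))
        (fun ω => ((dg2 X (yt y om th) ω, (Uni.dg X (cc om be S) ω, Uni.dg X (kk om E) ω)),
          (b ω, T ω))) →
      (∀ j : ℕ, (j + 1) * ⌊κ * X⌋₊ ≤ X → ∀ A : Ω → Prop, ϖ ≤ Pe p A →
        CH (Pool.Agent.H49.Ent.cond p A True) (Uni.dg ((j + 1) * ⌊κ * X⌋₊) nu)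
          (fun ω => (Uni.dg (j * ⌊κ * X⌋₊) nu ω, (b ω, T ω))) ≤
          (1 - c) * ⌊κ * X⌋₊ * Real.log 2) →
      Pool.KAF.Pr (dbl p (fun ω => (L ω, b ω)))
        {w | ∀ j, |S j w.1 - S j w.2| < (2 : ℝ) ^ (-(x₀ * X))} ≤ ε →
      Pool.KAF.Pr (dbl p (fun ω => (L ω, b ω)))
        {w | |E w.1 - E w.2| < (2 : ℝ) ^ (-(x₀ * X))} ≤ ε → False

end Pool.K2S
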