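import Pool.Agent.H88.OCS.Asm
import Pool.Agent.H4.OCS.TIM
import Pool.Agent.H39.OCS.Qns
import Pool.Agent.H87.OCS.Rows
import Pool.Agent.H70.OCS.SpsT
import Pool.Agent.H43.OC.Nls
import Pool.Agent.H41.OCS.Grs
import Pool.Agent.H83.OCS.STA
import Pool.Agent.H53.OCS.Acl
import Pool.Agent.H92.OCS.Acm
import Pool.Agent.H12.OCS.Mat
import Pool.Agent.H63.OCS.Fin

/-!
# Theorem OCS
-/

set_option autoImplicit false

namespace Pool.OCS

/-- **Theorem OCS.** -/
theorem ocs_thm : OCSStmt :=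
  ocs_of_rows T4.tim_thm rws_thm rwm_thm (sta_thm qns_thm sps_thm nls_thm G41.grs_thm)
    ACL.acl_thm ACM92.acm_thm M12.mat_thm fin_thm

end Pool.OCS
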