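import Pool.Agent.H88.OCS.Stmts
import Pool.Agent.H86.OC.ROW
import Pool.Agent.H20.OC.Tools
import Pool.Agent.H93.KVA.Var

/-!
# Theorem OCS: assembly (the chain of the levels)
-/

set_option autoImplicit false

namespace Pool.OCS

open Finset Real
open Pool.Agent.H49.Ent Pool.Agent.H32.Dense Pool.STK Pool.KAF

/-- The assumptions which do not depend on the level. -/
structure Env (d : Dat) (A : ℕ) (J : d.Om → Set ℕ) (u : ℝ) (b n h g lam k' k k₁ : ℕ)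
    (e x₀ ε : ℝ) : Prop where
  ok : d.OK A
  h1 : 1 ≤ h
  hn : 1024 * h ≤ n
  nX : 64 * n ≤ d.X
  hg : 512 * g ≤ n
  hl : 512 * lam ≤ n
  hx : 512 * (x₀ * d.X) ≤ n
  rs : ∀ (mu : d.Om × d.Om → ℤ) (j : ℕ), d.Lb mu → (∀ w, |mu w| ≤ 64 * d.X) →
    RowS d J mu lam n j k k₁ e ∧ RowS0 d J mu lam n j k k₁ e
  rm : ∀ (j : ℕ) (c : d.Om × d.Om → ℤ), d.Lb c → (∀ w, |c w| ≤ 64 * d.X) →
    RowM d J c n j k k₁ e ∧ ∑ s ∈ Finset.Ico (8 * n) (d.X - 8 * n),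
      Ex (d.Qp j) (fun w => max 0 (aS d b s w.2 - aM d c n j (b + 2) s w)) ≤ ε * d.X
  j1 : d.toR.J1 J h u ε ∅
  ta : TA d g ε
  tb : TB d g k' ε
  H1 : d.H1 ε
  H3 : d.H3 lam ε
  H7 : d.H7 x₀ ε

theorem H1_mono {d : Dat} {ε ε' : ℝ} (h : d.H1 ε) (he : ε ≤ ε') : d.H1 ε' := by
  have h2 : 0 < Real.log 2 := Real.log_pos (by norm_num)
  have h3 : ε * d.X ≤ ε' * d.X := mul_le_mul_of_nonneg_right he (Nat.cast_nonneg _)
  refine ⟨h.1.trans h3, le_trans ?_ h.2⟩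
  nlinarith only [h2, h3]

theorem H3_mono {d : Dat} {lam : ℕ} {ε ε' : ℝ} (h : d.H3 lam ε) (he : ε ≤ ε') :
    d.H3 lam ε' := by
  have h2 : 0 < Real.log 2 := Real.log_pos (by norm_num)
  have h3 : ε * d.X ≤ ε' * d.X := mul_le_mul_of_nonneg_right he (Nat.cast_nonneg _)
  unfold Dat.H3 at h ⊢
  refine le_trans ?_ h
  nlinarith only [h2, h3]

theorem Env.mono {d : Dat} {A : ℕ} {J : d.Om → Set ℕ} {u : ℝ} {b n h g lam k' k k₁ : ℕ}
    {e x₀ ε ε' : ℝ} (H : Env d A J u b n h g lam k' k k₁ e x₀ ε) (he : ε ≤ ε') :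
    Env d A J u b n h g lam k' k k₁ e x₀ ε' where
  ok := H.ok
  h1 := H.h1
  hn := H.hn
  nX := H.nX
  hg := H.hg
  hl := H.hl
  hx := H.hx
  rs := H.rs
  rm := fun j c h1 h2 => ⟨(H.rm j c h1 h2).1, (H.rm j c h1 h2).2.trans
    (mul_le_mul_of_nonneg_right he (Nat.cast_nonneg _))⟩
  j1 := le_trans H.j1 he
  ta := fun i i' h1 h2 => (H.ta i i' h1 h2).trans he
  tb := fun a b h1 h2 => (H.tb a b h1 h2).trans (mul_le_mul_of_nonneg_right he (by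
    have : (a : ℝ) ≤ b := by exact_mod_cast (Nat.le_add_right a g).trans h1
    linarith only [this]))
  H1 := H1_mono H.H1 he
  H3 := H3_mono H.H3 he
  H7 := le_trans H.H7 he

theorem Act_iff {d : Dat} {n b : ℕ} {c₃ : ℝ} {ω ω' : d.Om} (h1 : d.L ω = d.L ω')
    (h2 : d.T ω = d.T ω') : (ω ∈ Act d n b c₃ ↔ ω' ∈ Act d n b c₃) := by
  have h : ∀ s, aS d b s ω = aS d b s ω' := by
    intro s
    unfold aS Dat.GK
    rw [h1, h2]
  unfold Act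
  simp only [Set.mem_ofPred_eq, h]

/-- One level. -/
theorem level (hSTA : STAStmt) (hMAT : MATStmt) (hFIN : FINStmt) {u c₃ : ℝ} (hu : 0 < u)
    (hu1 : u ≤ 1) (hc₃ : 0 < c₃) {ε' : ℝ} (hε' : 0 < ε') :
    ∃ ε κ₂ ε₈ : ℝ, 0 < ε ∧ 0 < κ₂ ∧ 0 < ε₈ ∧ ∀ A b k' : ℕ, ∃ (k₀ k₁₀ n₀ : ℕ) (e₀ : ℝ), 0 < e₀ ∧
      ∀ (d : Dat) (J : d.Om → Set ℕ) (m : ℤ) (n h g lam k k₁ : ℕ) (e x₀ : ℝ),
      Env d A J u b n h g lam k' k k₁ e x₀ ε₈ → -(4 * n + 2 : ℤ) ≤ m → m ≤ 2 * n → n₀ ≤ n →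
      (n : ℝ) ≤ κ₂ * d.X → k₀ ≤ k → k₁₀ ≤ k₁ → e ≤ e₀ → BND d (Act d n b c₃) m n ε →
      BND d (Act d n b c₃) (m + (n / 20 : ℕ)) n ε' ∧
        Pr (dbl d.P d.L) {w | w.1 ∈ Act d n b c₃ ∧ w.2 ∈ Act d n b c₃ ∧
          (2 : ℝ) ^ (-(m + (n / 20 : ℕ)) + 1) < ‖d.S (d.T w.1) - d.S (d.T w.2)‖} ≤ ε' := by
  obtain ⟨εF, hεF, HF⟩ := hFIN ε' hε'
  obtain ⟨C, εM, hC, hεM, HM⟩ := hMAT u c₃ (εF / 2) hu hu1 hc₃ (by positivity)
  set η : ℝ := min εF (εF / (2 * C)) with hη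
  have hη0 : 0 < η := lt_min hεF (by positivity)
  have hη1 : η ≤ εF := min_le_left _ _
  have hη2 : C * η ≤ εF / 2 := by
    have : η ≤ εF / (2 * C) := min_le_right _ _
    calc C * η ≤ C * (εF / (2 * C)) := mul_le_mul_of_nonneg_left this hC.le
      _ = εF / 2 := by field_simp
  obtain ⟨κ₂, εS, hκ₂, hεS, HS⟩ := hSTA u (η / 2) hu hu1 (by positivity)
  refine ⟨η / 32, κ₂, min (min εS εM) εF, by positivity, hκ₂, lt_min (lt_min hεS hεM) hεF, ?_⟩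
  intro A b k'
  obtain ⟨kS, k₅, k1S, nS, eS, heS, HS1⟩ := HS A k'
  obtain ⟨k1M, nM, eM, heM, HM1⟩ := HM A b k' k₅
  obtain ⟨nF, HF1⟩ := HF A k₅
  refine ⟨max kS 8, max k1S k1M, max (max nS nM) nF, min eS eM, lt_min heS heM, ?_⟩
  intro d J m n h g lam k k₁ e x₀ E hm1 hm2 hn hnX hk hk1 he hB
  have hsz : Siz d n h m := ⟨E.h1, E.hn, E.nX, hm1, hm2⟩
  have E1 : Env d A J u b n h g lam k' k k₁ e x₀ εS :=
    E.mono ((min_le_left _ _).trans (min_le_left _ _))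
  have E2 : Env d A J u b n h g lam k' k k₁ e x₀ εM :=
    E.mono ((min_le_left _ _).trans (min_le_right _ _))
  have E3 : Env d A J u b n h g lam k' k k₁ e x₀ εF := E.mono (min_le_right _ _)
  obtain ⟨Λ, hΛ, p1, p2, p3, p4⟩ := HS1 d J (Act d n b c₃) m n h g lam k k₁ e (η / 32) E1.ok hsz
    (((le_max_left _ _).trans (le_max_left _ _)).trans hn) hnX (by have := E1.hg; omega)
    (by have := E1.hl; omega) ((le_max_left _ _).trans hk) ((le_max_left _ _).trans hk1)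
    (he.trans (min_le_left _ _)) E1.rs E1.j1 E1.ta E1.tb E1.H1 E1.H3
    (fun ω ω' h1 h2 => Act_iff h1 h2) hB
  have hs : 16 * (η / 32) + η / 2 = η := by ring
  rw [hs] at p1 p2 p3 p4
  have AG : ∀ i₀, AGS d (Act d n b c₃) m n i₀ (k₅ + lam) Λ η →
      AGS d (Act d n b c₃) m n i₀ (k₅ + lam) Λ εF := fun i₀ h =>
    le_trans h (mul_le_mul_of_nonneg_right hη1 (Nat.cast_nonneg _))
  have hM : ∀ j, j ≤ n / 2 → MAT d (Act d n b c₃) m n Λ j εF := by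
    intro j hj
    have q := HM1 d J m n h g lam j k k₁ e η Λ E2.ok hsz
      (((le_max_right _ _).trans (le_max_left _ _)).trans hn) (by have := E2.hg; omega)
      (by have := E2.hl; omega) hj ((le_max_right _ _).trans hk) ((le_max_right _ _).trans hk1)
      (he.trans (min_le_right _ _)) (E2.rm j) E2.j1 E2.ta E2.tb hΛ p4 p1
    exact le_trans q (by linarith only [hη2])
  exact HF1 d (Act d n b c₃) m n h g lam x₀ Λ E3.ok hsz ((le_max_right _ _).trans hn) E3.hg E3.hl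
    E3.hx E3.ta (fun ω ω' h1 h2 => Act_iff h1 h2) hΛ (p1.trans hη1) (AG _ p2) (AG _ p3) hM E3.H7

/-- The chain of the levels. -/
theorem chain (hSTA : STAStmt) (hMAT : MATStmt) (hFIN : FINStmt) {u c₃ : ℝ} (hu : 0 < u)
    (hu1 : u ≤ 1) (hc₃ : 0 < c₃) (R : ℕ) (hR : R ≤ 100) : ∀ ε' : ℝ, 0 < ε' →
    ∃ ε κ₂ ε₈ : ℝ, 0 < ε ∧ 0 < κ₂ ∧ 0 < ε₈ ∧ ∀ A b k' : ℕ, ∃ (k₀ k₁₀ n₀ : ℕ) (e₀ : ℝ), 0 < e₀ ∧
      ∀ (d : Dat) (J : d.Om → Set ℕ) (n h g lam k k₁ : ℕ) (e x₀ : ℝ),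
      Env d A J u b n h g lam k' k k₁ e x₀ ε₈ → n₀ ≤ n →
      (n : ℝ) ≤ κ₂ * d.X → k₀ ≤ k → k₁₀ ≤ k₁ → e ≤ e₀ →
      BND d (Act d n b c₃) (-(4 * n + 2 : ℤ)) n ε →
      BND d (Act d n b c₃) (-(4 * n + 2 : ℤ) + R * (n / 20 : ℕ)) n ε' ∧
        (R ≠ 0 → Pr (dbl d.P d.L) {w | w.1 ∈ Act d n b c₃ ∧ w.2 ∈ Act d n b c₃ ∧
          (2 : ℝ) ^ (-(-(4 * n + 2 : ℤ) + R * (n / 20 : ℕ)) + 1) <
            ‖d.S (d.T w.1) - d.S (d.T w.2)‖} ≤ ε') := by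
  induction R with
  | zero =>
    intro ε' hε'
    refine ⟨ε', 1, 1, hε', one_pos, one_pos, fun A b k' => ⟨0, 0, 0, 1, one_pos, ?_⟩⟩
    intro d J n h g lam k k₁ e x₀ _ _ _ _ _ _ hB
    refine ⟨by simpa using hB, fun h => absurd rfl h⟩
  | succ R ih =>
    intro ε' hε'
    obtain ⟨ε₁, κ₁, δ₁, hε₁, hκ₁, hδ₁, H₁⟩ := level hSTA hMAT hFIN hu hu1 hc₃ hε'
    obtain ⟨ε₂, κ₂, δ₂, hε₂, hκ₂, hδ₂, H₂⟩ := ih (by omega) ε₁ hε₁
    refine ⟨ε₂, min κ₁ κ₂, min δ₁ δ₂, hε₂, lt_min hκ₁ hκ₂, lt_min hδ₁ hδ₂, ?_⟩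
    intro A b k'
    obtain ⟨a1, b1, n1, e1, he1, G1⟩ := H₁ A b k'
    obtain ⟨a2, b2, n2, e2, he2, G2⟩ := H₂ A b k'
    refine ⟨max a1 a2, max b1 b2, max n1 n2, min e1 e2, lt_min he1 he2, ?_⟩
    intro d J n h g lam k k₁ e x₀ E hn hnX hk hk1 he hB
    have hX0 : (0 : ℝ) ≤ d.X := Nat.cast_nonneg _
    have q := (G2 d J n h g lam k k₁ e x₀ (E.mono (min_le_right _ _)) ((le_max_right _ _).trans hn)
      (hnX.trans (mul_le_mul_of_nonneg_right (min_le_right _ _) hX0)) ((le_max_right _ _).trans hk)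
      ((le_max_right _ _).trans hk1) (he.trans (min_le_right _ _)) hB).1
    have hRn : (R : ℤ) * (n / 20 : ℕ) ≤ 5 * n := by
      have h1 : R * (n / 20) ≤ 100 * (n / 20) := Nat.mul_le_mul_right _ (by omega)
      have h2 : 100 * (n / 20) ≤ 5 * n := by omega
      exact_mod_cast h1.trans h2
    have hRn0 : (0 : ℤ) ≤ (R : ℤ) * (n / 20 : ℕ) := by positivity
    have r := G1 d J (-(4 * n + 2 : ℤ) + R * (n / 20 : ℕ)) n h g lam k k₁ e x₀
      (E.mono (min_le_left _ _)) (by linarith only [hRn0]) (by linarith only [hRn]) ((le_max_left _ _).trans hn)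
      (hnX.trans (mul_le_mul_of_nonneg_right (min_le_left _ _) hX0)) ((le_max_left _ _).trans hk)
      ((le_max_left _ _).trans hk1) (he.trans (min_le_left _ _)) q
    have hc : (-(4 * n + 2 : ℤ) + ((R + 1 : ℕ) : ℤ) * (n / 20 : ℕ)) =
        -(4 * n + 2 : ℤ) + R * (n / 20 : ℕ) + (n / 20 : ℕ) := by
      push_cast
      ring
    rw [hc]
    exact ⟨r.1, fun _ => r.2⟩

/-- Both samples of a pair in one event. -/
theorem dbl_both {Ω T : Type} [Fintype Ω] {p : Ω → ℝ} (hp : IsLaw p) (Z : Ω → T) (G : Set Ω) :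
    Pr p G ^ 2 ≤ Pr (dbl p Z) {w | w.1 ∈ G ∧ w.2 ∈ G} := by
  classical
  set f : Ω → ℝ := fun ω => if ω ∈ G then (1 : ℝ) else 0 with hf
  set q : Ω → ℝ := fun ω => Pr (cond p Z (Z ω)) G with hq
  have h1 : Pr (dbl p Z) {w | w.1 ∈ G ∧ w.2 ∈ G} = Ex p (fun ω => f ω * q ω) := by
    rw [Pool.OC.Pr_dblW]
    unfold Ex
    refine Finset.sum_congr rfl fun ω _ => ?_
    congr 1
    by_cases h : ω ∈ G
    · rw [hf, hq]
      simp only [if_pos h, one_mul]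
      congr 1
      ext v
      exact ⟨fun h' => h'.2, fun h' => ⟨h, h'⟩⟩
    · rw [hf]
      simp only [if_neg h, zero_mul]
      rw [Pool.KAF.Pr_eq]
      refine Finset.sum_eq_zero fun v _ => if_neg fun h' => h h'.1
  have h2 : Ex p (fun ω => q ω ^ 2) = Ex p (fun ω => f ω * q ω) := by
    rw [← Pool.KVA.Ex_tower hp.nonneg Z (fun ω => f ω * q ω)]
    unfold Ex
    refine Finset.sum_congr rfl fun ω _ => ?_
    congr 1
    have h3 : ∀ v, cond p Z (Z ω) v * (f v * q v) = q ω * (cond p Z (Z ω) v * f v) := by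
      intro v
      by_cases h : Z v = Z ω
      · have : q v = q ω := by simp only [hq, h]
        rw [this]
        ring
      · have : cond p Z (Z ω) v = 0 := by
          unfold Pool.Agent.H49.Ent.cond
          rw [if_neg h]
        rw [this]
        ring
    simp_rw [h3]
    rw [← Finset.mul_sum]
    have h4 := Pool.OC.Ex_ind (cond p Z (Z ω)) G
    unfold Ex at h4
    rw [sq]
    congr 1
    exact h4.symm
  have h5 : Ex p q = Pr p G := by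
    have h8 := Pool.KVA.Ex_tower hp.nonneg Z f
    rw [show Ex p f = Pr p G from Pool.OC.Ex_ind p G] at h8
    rw [← h8]
    unfold Ex
    refine Finset.sum_congr rfl fun ω _ => ?_
    congr 1
    have h4 := Pool.OC.Ex_ind (cond p Z (Z ω)) G
    unfold Ex at h4
    exact h4.symm
  have h6 := Pool.KVA.Ex_sq_sub hp.sum_one q (Ex p q)
  have h7 : 0 ≤ Ex p (fun ω => (q ω - Ex p q) ^ 2) :=
    Finset.sum_nonneg fun ω _ => mul_nonneg (hp.nonneg ω) (sq_nonneg _)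
  unfold Pool.KVA.Var at h6
  rw [h1, ← h2, ← h5]
  linarith [h6, h7]

theorem Pr_mon {Ω : Type} [Fintype Ω] {p : Ω → ℝ} (hp : ∀ ω, 0 ≤ p ω) {A B : Set Ω}
    (h : ∀ ω, 0 < p ω → ω ∈ A → ω ∈ B) : Pr p A ≤ Pr p B := by
  classical
  rw [Pool.KAF.Pr_eq, Pool.KAF.Pr_eq]
  refine Finset.sum_le_sum fun ω _ => ?_
  rcases (hp ω).eq_or_lt with h0 | h0
  · rw [← h0]
    simp
  by_cases h1 : ω ∈ A
  · rw [if_pos h1, if_pos (h ω h0 h1)]
  · rw [if_neg h1]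
    split_ifs
    · exact hp ω
    · exact le_refl _

theorem sg_norm_le {d : Dat} {A : ℕ} (hd : d.OK A) (w : d.Om × d.Om) : ‖d.sg w‖ ≤ 2 := by
  rw [pi_norm_le_iff_of_nonneg (by norm_num)]
  intro r
  rw [Real.norm_eq_abs]
  have h1 := abs_le.1 (hd.hS (d.T w.2) r)
  have h2 := abs_le.1 (hd.hS (d.T w.1) r)
  unfold Dat.sg
  rw [abs_le]
  constructor <;> linarith [h1.1, h1.2, h2.1, h2.2]

/-- The start of the chain. -/
theorem bnd_start {d : Dat} {A n g : ℕ} {ε ε₀ : ℝ} (G : Set d.Om) (hd : d.OK A) (hn : 1 ≤ n)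
    (nX : 64 * n ≤ d.X) (hg : 512 * g ≤ n) (h2 : 2 * ε ≤ ε₀) (hT : TA d g ε) :
    BND d G (-(4 * n + 2 : ℤ)) n ε₀ := by
  unfold BND
  have hP := hd.law.nonneg
  have h1 : ∀ i ∈ Finset.Ico (n / 16) (2 * n), Pr (d.Qp i)
      {w | w.1 ∈ G ∧ (2 : ℝ) ^ (-(-(4 * n + 2 : ℤ))) * |d.ta w| < ‖d.sg w‖} ≤ ε := by
    intro i hi
    rw [Finset.mem_Ico] at hi
    refine le_trans ?_ (hT i (4 * n + 1) (by omega) (by omega))
    refine Pr_mon (fun w => dbl_nonneg hP w) fun w _ hw => ?_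
    have h3 := hw.2.trans_le (sg_norm_le hd w)
    show |d.ta w| < (2 : ℝ) ^ (-((4 * n + 1 : ℕ) : ℤ))
    rw [neg_neg, show (4 * n + 2 : ℤ) = ((4 * n + 1 : ℕ) : ℤ) + 1 by push_cast; ring,
      zpow_add₀ (by norm_num), zpow_one, zpow_natCast] at h3
    rw [zpow_neg, zpow_natCast, ← one_div, lt_div_iff₀ (by positivity)]
    nlinarith only [h3]
  refine (Finset.sum_le_sum h1).trans ?_
  have hε : 0 ≤ ε := le_trans (by
    rw [Pool.KAF.Pr_eq]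
    refine Finset.sum_nonneg fun w _ => ?_
    split_ifs
    · exact dbl_nonneg hP w
    · exact le_refl _) (hT 0 g (by omega) (by omega))
  rw [Finset.sum_const, Nat.card_Ico, nsmul_eq_mul]
  have h3 : ((2 * n - n / 16 : ℕ) : ℝ) ≤ 2 * n := by exact_mod_cast Nat.sub_le _ _
  have h4 : (0 : ℝ) ≤ n := Nat.cast_nonneg _
  nlinarith only [h3, hε, h2, mul_le_mul_of_nonneg_right h3 hε]

theorem log_big {δ : ℝ} (hδ : 0 < δ) :
    ∃ X₁ : ℕ, ∀ X : ℕ, X₁ ≤ X → Real.log (200 * (X + 1)) ≤ δ * X := by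
  obtain ⟨X₁, hX₁⟩ := exists_nat_ge (1600 / δ ^ 2)
  refine ⟨max X₁ 1, fun X hX => ?_⟩
  have hX1 : (1 : ℝ) ≤ X := by exact_mod_cast (le_max_right _ _).trans hX
  have hX2 : (X₁ : ℝ) ≤ X := by exact_mod_cast (le_max_left _ _).trans hX
  have h1 : 1600 ≤ δ ^ 2 * X := by
    have := hX₁.trans hX2
    rw [div_le_iff₀ (by positivity)] at this
    linarith only [this]
  set y : ℝ := 200 * (X + 1) with hy
  have hy0 : 0 < y := by positivity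
  have hs : 0 < √y := Real.sqrt_pos.2 hy0
  have h2 : Real.log y ≤ 2 * √y := by
    have h3 := Real.log_le_sub_one_of_pos hs
    have h4 : Real.log y = 2 * Real.log (√y) := by
      rw [Real.log_sqrt hy0.le]
      ring
    linarith only [h3, h4]
  refine h2.trans ?_
  have h5 : (2 * √y) ^ 2 ≤ (δ * X) ^ 2 := by
    rw [mul_pow, Real.sq_sqrt hy0.le, hy]
    nlinarith only [hX1, h1, mul_le_mul_of_nonneg_right h1 (by positivity : (0 : ℝ) ≤ X)]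
  exact abs_le_of_sq_le_sq' h5 (by positivity) |>.2

/-- **Theorem OCS from its rows.** -/
theorem ocs_of_rows (hTIM : TIMStmt) (hRWS : RWSStmt) (hRWM : RWMStmt) (hSTA : STAStmt)
    (hACL : ACLStmt) (hACM : ACMStmt) (hMAT : MATStmt) (hFIN : FINStmt) : OCSStmt := by
  intro A c ca hc hca
  obtain ⟨u, hu, hu1, Hrow⟩ := Pool.OC.RS.row_M5 A c hc
  obtain ⟨b, c₃, κa, hc₃, hκa, Hacl⟩ := hACL ca hca
  obtain ⟨Xa, Hacl⟩ := Hacl A
  obtain ⟨ε₀, κc, ε₈, hε₀, hκc, hε₈, Hch⟩ := chain hSTA hMAT hFIN hu hu1 hc₃ 100 le_rfl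
    (c₃ ^ 2 / 4) (by positivity)
  -- the numbers
  set κ₂ : ℝ := min (min κa κc) (1 / 64) with hκ₂
  have hκ₂0 : 0 < κ₂ := lt_min (lt_min hκa hκc) (by norm_num)
  have hκ₂a : κ₂ ≤ κa := (min_le_left _ _).trans (min_le_left _ _)
  have hκ₂c : κ₂ ≤ κc := (min_le_left _ _).trans (min_le_right _ _)
  have hκ₂1 : κ₂ ≤ 1 / 64 := min_le_right _ _
  set εT : ℝ := min ε₈ (ε₀ / 2) with hεT
  have hεT0 : 0 < εT := lt_min hε₈ (by positivity)
  obtain ⟨k', Htim⟩ := hTIM εT hεT0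
  obtain ⟨ιT, XT, hιT, Htim⟩ := Htim (κ₂ / 1024) (by positivity)
  obtain ⟨k₀, k₁₀, n₀, e₀, he₀, Hch⟩ := Hch A b k'
  obtain ⟨δ, hδ, Hrow⟩ := Hrow k₀ k₁₀ 64 e₀ he₀
  obtain ⟨π₀, XR, hπ₀, Hrow⟩ := Hrow (κ₂ / 2048) ε₈ (by positivity) (by linarith only [hκ₂0, hκ₂1]) hε₈
  obtain ⟨ιA, XA, hιA, Hacm⟩ := hACM b ε₈ hε₈
  obtain ⟨XL, HL⟩ := log_big hδ
  obtain ⟨XN, HN⟩ := exists_nat_ge ((2 * (n₀ + 1000 : ℝ) + 2048) / κ₂)
  set ι : ℝ := min (min ιT ιA) (min (δ / 3) ε₈) with hι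
  have hι0 : 0 < ι := lt_min (lt_min hιT hιA) (lt_min (by positivity) hε₈)
  have hιT' : ι ≤ ιT := (min_le_left _ _).trans (min_le_left _ _)
  have hιA' : ι ≤ ιA := (min_le_left _ _).trans (min_le_right _ _)
  have hιδ : ι ≤ δ / 3 := (min_le_right _ _).trans (min_le_left _ _)
  have hι8 : ι ≤ ε₈ := (min_le_right _ _).trans (min_le_right _ _)
  refine ⟨κ₂ / 1024, κ₂ / 1024, κ₂ / 2048, π₀, ι, min ε₈ (c₃ ^ 2 / 4),
    max (max (max Xa XT) (max XR XA)) (max XL XN), by positivity, by positivity, by positivity,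
    by linarith only [hκ₂0, hκ₂1], hπ₀, hι0, lt_min hε₈ (by positivity), ?_⟩
  intro d lam hd hX hlam hH1 hH2 hH3 hH4 hH5 hH6 hH7
  have hXa : Xa ≤ d.X := by omega
  have hXT : XT ≤ d.X := by omega
  have hXR : XR ≤ d.X := by omega
  have hXA : XA ≤ d.X := by omega
  have hXL : XL ≤ d.X := by omega
  have hXN : (XN : ℝ) ≤ d.X := by exact_mod_cast (show XN ≤ d.X by omega)
  have hP := hd.law.nonneg
  -- sizes
  set n : ℕ := ⌊κ₂ * d.X⌋₊ with hn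
  have hX0 : (0 : ℝ) ≤ d.X := Nat.cast_nonneg _
  have hbig : 2 * (n₀ + 1000 : ℝ) + 2048 ≤ κ₂ * d.X := by
    have := HN.trans hXN
    rw [div_le_iff₀ hκ₂0] at this
    linarith only [this]
  have hn₀0 : (0 : ℝ) ≤ n₀ := Nat.cast_nonneg _
  have hn1 : (n : ℝ) ≤ κ₂ * d.X := Nat.floor_le (by positivity)
  have hn2 : κ₂ * d.X / 2 ≤ n := by
    have := Nat.sub_one_lt_floor (κ₂ * d.X)
    rw [← hn] at this
    linarith only [hκ₂0, hκ₂1, hbig, this]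
  have hn3 : n₀ + 1000 ≤ n := by
    have : ((n₀ + 1000 : ℕ) : ℝ) ≤ n := by
      push_cast
      linarith only [hκ₂0, hκ₂1, hbig, hn2]
    exact_mod_cast this
  have hnX : 64 * n ≤ d.X := by
    have : ((64 * n : ℕ) : ℝ) ≤ d.X := by
      push_cast
      nlinarith only [hn1, hκ₂1]
    exact_mod_cast this
  set h : ℕ := ⌊κ₂ / 2048 * d.X⌋₊ with hh
  have hh1 : 1 ≤ h := by
    rw [hh]
    refine Nat.le_floor ?_
    push_cast
    linarith only [hκ₂0, hκ₂1, hbig]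
  have hh2 : 1024 * h ≤ n := by
    have h1 : (h : ℝ) ≤ κ₂ / 2048 * d.X := Nat.floor_le (by positivity)
    have : ((1024 * h : ℕ) : ℝ) ≤ n := by
      push_cast
      linarith only [hn2, h1]
    exact_mod_cast this
  set g : ℕ := ⌊κ₂ / 1024 * d.X⌋₊ with hg
  have hg2 : 512 * g ≤ n := by
    have h1 : (g : ℝ) ≤ κ₂ / 1024 * d.X := Nat.floor_le (by positivity)
    have : ((512 * g : ℕ) : ℝ) ≤ n := by
      push_cast
      linarith only [hn2, h1]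
    exact_mod_cast this
  have hl2 : 512 * lam ≤ n := by
    have : ((512 * lam : ℕ) : ℝ) ≤ n := by
      push_cast
      linarith only [hlam, hn2]
    exact_mod_cast this
  -- the rows
  have hH2' : d.toR.H2 δ := hH2.trans (mul_le_mul_of_nonneg_right (by linarith only [hι0, hιδ]) hX0)
  obtain ⟨J, hJ1, hJ2⟩ := Hrow d.toR ∅ ⟨hd.law, hd.hN, hd.hZ⟩ hXR hH2' hH5
  obtain ⟨hTA, hTB⟩ := Htim d A hd hXT (H1_mono hH1 hιT')
  have hlog := HL d.X hXL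
  have E : Env d A J u b n h g lam k' k₀ k₁₀ e₀ (κ₂ / 1024) ε₈ :=
    { ok := hd
      h1 := hh1
      hn := hh2
      nX := hnX
      hg := hg2
      hl := hl2
      hx := by linarith only [hn2]
      rs := fun mu j h1 h2 => hRWS d A J mu lam n j k₀ k₁₀ e₀ δ ι hd hH1 (by linarith only [hιδ]) h1 h2 hlog
        hJ2
      rm := fun j c' h1 h2 => ⟨hRWM d A J c' n j k₀ k₁₀ e₀ δ ι hd hH1 (by linarith only [hιδ]) h1 h2 hlog
        hJ2, Hacm d A n j c' hd hXA hnX (H1_mono hH1 hιA') h1 h2⟩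
      j1 := hJ1
      ta := fun i i' h1 h2 => (hTA i i' h1 h2).trans (min_le_left _ _)
      tb := fun a b' h1 h2 => (hTB a b' h1 h2).trans (mul_le_mul_of_nonneg_right (min_le_left _ _)
        (by
          have : (a : ℝ) ≤ b' := by exact_mod_cast (Nat.le_add_right a _).trans h1
          linarith only [this]))
      H1 := H1_mono hH1 hι8
      H3 := H3_mono hH3 hι8
      H7 := le_trans hH7 (min_le_left _ _) }
  set G := Act d n b c₃ with hG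
  have hB : BND d G (-(4 * n + 2 : ℤ)) n ε₀ :=
    bnd_start G hd (by omega) hnX hg2 (ε := εT) (by
      have : εT ≤ ε₀ / 2 := min_le_right _ _
      linarith only [this]) hTA
  have hc100 := (Hch d J n h g lam k₀ k₁₀ e₀ (κ₂ / 1024) E (by omega)
    (hn1.trans (mul_le_mul_of_nonneg_right hκ₂c hX0)) le_rfl le_rfl le_rfl hB).2 (by norm_num)
  have hGp : c₃ ≤ Pr d.P G := Hacl d n hd hXa
    (hn1.trans (mul_le_mul_of_nonneg_right hκ₂a hX0)) hH4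
  have hboth := dbl_both hd.law d.L G
  have h6 : Pr (dbl d.P d.L) {w | w.1 ∈ G ∧ w.2 ∈ G} ≤
      Pr (dbl d.P d.L) {w | w.1 ∈ G ∧ w.2 ∈ G ∧
        (2 : ℝ) ^ (-(-(4 * n + 2 : ℤ) + (100 : ℕ) * (n / 20 : ℕ)) + 1) <
          ‖d.S (d.T w.1) - d.S (d.T w.2)‖} +
      Pr (dbl d.P d.L) {w | ‖d.S (d.T w.1) - d.S (d.T w.2)‖ <
        (2 : ℝ) ^ (-(κ₂ / 1024 * d.X))} := by
    refine Pool.OC.Pr_or (fun w => dbl_nonneg hP w) fun w _ hw => ?_
    by_cases h1 : (2 : ℝ) ^ (-(-(4 * n + 2 : ℤ) + (100 : ℕ) * (n / 20 : ℕ)) + 1) <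
        ‖d.S (d.T w.1) - d.S (d.T w.2)‖
    · exact Or.inl ⟨hw.1, hw.2, h1⟩
    · right
      rw [not_lt] at h1
      refine lt_of_le_of_lt h1 ?_
      rw [← Real.rpow_intCast]
      refine Real.rpow_lt_rpow_of_exponent_lt (by norm_num) ?_
      have h2 : 5 * n ≤ 100 * (n / 20) + 100 := by omega
      generalize n / 20 = r at h2 ⊢
      have h3 : (5 * n : ℝ) ≤ 100 * (r : ℝ) + 100 := by exact_mod_cast h2
      have h4 : (1000 : ℝ) ≤ n := by exact_mod_cast (show 1000 ≤ n by omega)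
      push_cast
      linarith only [hκ₂0, hκ₂1, hbig, hn2, h3]
  have h7 : c₃ ^ 2 ≤ Pr d.P G ^ 2 := by
    rw [sq_le_sq₀ hc₃.le (hc₃.le.trans hGp)]
    exact hGp
  have h8 : Pr (dbl d.P d.L) {w | ‖d.S (d.T w.1) - d.S (d.T w.2)‖ <
        (2 : ℝ) ^ (-(κ₂ / 1024 * d.X))} ≤ c₃ ^ 2 / 4 := le_trans hH6 (min_le_right _ _)
  have h9 : 0 < c₃ ^ 2 := by positivity
  linarith only [hc100, hboth, h6, h7, h8, h9]

end Pool.OCS
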