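import Pool.Agent.H88.OCS.OcbB

/-!
# Theorem OCS in the mean over the context
-/

set_option autoImplicit false

namespace Pool.K2S

open Finset Real
open Pool.Agent.H49.Ent Pool.Agent.H32.Dense Pool.STK Pool.KA

namespace Ocs

variable {Ω Λ Θ β S T U V : Type} [Fintype Ω]

theorem OCSData.cond {B : ℕ} {p : Ω → ℝ} {b : Ω → β} {L : Ω → Λ} {T : Ω → Θ}
    {y om : Fin 2 → Ω → ℝ} {be m0 th : Ω → ℝ} {S : Fin 2 → Ω → ℝ} {E nu : Ω → ℝ}
    (h : OCSData B p b L T y om be m0 th S E nu) {z : β} (hz : 0 < law p b z) :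
    OCSData B (Pool.Agent.H49.Ent.cond p b z) (fun _ => ()) L T y om be m0 th S E nu := by
  have h0 := h.law.nonneg
  have hp : ∀ ω, 0 < Pool.Agent.H49.Ent.cond p b z ω → 0 < p ω ∧ b ω = z := fun ω hω =>
    (cond_pos_iff h0 b z ω).1 hω
  have key : ∀ {τ : Type} {A : Ω → τ} {x : Ω → ℝ}, Det p (fun ω => (b ω, A ω)) x →
      Det (Pool.Agent.H49.Ent.cond p b z) (fun ω => ((), A ω)) x := by
    intro τ A x hd ω ω' a a' e
    obtain ⟨c1, c2⟩ := hp ω a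
    obtain ⟨c3, c4⟩ := hp ω' a'
    exact hd ω ω' c1 c3 (Prod.ext (c2.trans c4.symm) (Prod.ext_iff.mp e).2)
  exact ⟨Uni.isLaw_cond' h0 b hz, fun j => key (h.dy j), fun j => key (h.dom j), key h.dbe,
    key h.dm0, key h.dth, fun j => key (h.dS j), key h.dE,
    fun j ω hω => h.hy j ω (hp ω hω).1, fun j ω hω => h.hom j ω (hp ω hω).1,
    fun ω hω => h.hbe ω (hp ω hω).1, fun ω hω => h.hth ω (hp ω hω).1,
    fun j ω hω => h.hS j ω (hp ω hω).1, fun ω hω => h.hE ω (hp ω hω).1,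
    fun ω hω => h.hnu ω (hp ω hω).1⟩

theorem Ex_swap3 {p : Ω → ℝ} (hp : ∀ ω, 0 ≤ p ω) (b : Ω → β) (X : Ω → S) (W : Ω → T) (R : Ω → U)
    (Y : Ω → Θ) : Ex p (fun ω => CH (Pool.Agent.H49.Ent.cond p b (b ω)) X
      (fun v => (W v, (R v, Y v)))) = CH p X (fun ω => (W ω, (R ω, (b ω, Y ω)))) := by
  rw [Pool.KX.JBG.Ex_CH hp X (fun v => (W v, (R v, Y v))) b]
  refine CH_congr hp ?_ ?_ ?_ ?_
  · intro ω ω' _ _ e
    exact (Prod.ext_iff.mp e).1
  · intro ω ω' _ _ e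
    exact (Prod.ext_iff.mp e).1
  · intro ω ω' _ _ e
    have e1 := Prod.ext_iff.mp e
    have e2 := Prod.ext_iff.mp e1.1
    have e3 := Prod.ext_iff.mp e2.2
    exact Prod.ext e2.1 (Prod.ext e3.1 (Prod.ext e1.2 e3.2))
  · intro ω ω' _ _ e
    have e1 := Prod.ext_iff.mp e
    have e2 := Prod.ext_iff.mp e1.2
    have e3 := Prod.ext_iff.mp e2.2
    exact Prod.ext (Prod.ext e1.1 (Prod.ext e2.1 e3.2)) e3.1

/-- New digits. -/
theorem dg_add_le {q : Ω → ℝ} (hq : IsLaw q) (a t : ℕ) (x : Ω → ℝ) {W : Ω → T}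
    (hW : Det q W (Uni.dg a x)) : CH q (Uni.dg (a + t) x) W ≤ t * Real.log 2 := by
  classical
  have h0 := hq.nonneg
  have h1 : CH q (Uni.dg (a + t) x) W ≤ CH q (Uni.dg (a + t) x) (Uni.dg a x) :=
    CH_mono_cond h0 hW
  refine h1.trans ?_
  refine (CH_le_card h0 hq.sum_one (Uni.dg (a + t) x) (Uni.dg a x)
    (fun z => Finset.Ico (2 ^ t * z) (2 ^ t * z + 2 ^ t)) ?_).trans ?_
  · intro ω _
    have e1 : Uni.dg (a + t) x ω / 2 ^ t = Uni.dg a x ω := by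
      have := Uni.floor_row (Nat.le_add_right a t) (x ω)
      rw [Nat.add_sub_cancel_left] at this
      exact this
    have hpos : (0 : ℤ) < 2 ^ t := by positivity
    rw [Finset.mem_Ico, ← e1]
    have h2 := Int.emod_add_mul_ediv (Uni.dg (a + t) x ω) (2 ^ t)
    have h3 := Int.emod_nonneg (Uni.dg (a + t) x ω) hpos.ne'
    have h4 := Int.emod_lt_of_pos (Uni.dg (a + t) x ω) hpos
    constructor <;> linarith
  · refine le_of_eq ?_
    have : ∀ z : ℤ, (Finset.Ico (2 ^ t * z) (2 ^ t * z + 2 ^ t)).card = 2 ^ t := by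
      intro z
      rw [Int.card_Ico]
      have e : 2 ^ t * z + 2 ^ t - 2 ^ t * z = ((2 ^ t : ℕ) : ℤ) := by push_cast; ring
      rw [e, Int.toNat_natCast]
    simp only [this]
    rw [Ex_const hq.sum_one]
    push_cast
    rw [Real.log_pow]

theorem tiles_le {q : Ω → ℝ} (hq : IsLaw q) (Yt : Fin 2 → Ω → ℝ) (O : ℕ → Ω → S) (T : Ω → Θ)
    (X t : ℕ) : ∑ r ∈ range (X / t), CH q (dg2 ((r + 1) * t) Yt)
      (fun ω => (dg2 (r * t) Yt ω, (O (r * t) ω, T ω))) ≤ 2 * X * Real.log 2 := by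
  have h0 := hq.nonneg
  have hl2 : 0 < Real.log 2 := Real.log_pos (by norm_num)
  have k : ∀ r ∈ range (X / t), CH q (dg2 ((r + 1) * t) Yt)
      (fun ω => (dg2 (r * t) Yt ω, (O (r * t) ω, T ω))) ≤ 2 * (t * Real.log 2) := by
    intro r _
    have e : (r + 1) * t = r * t + t := by ring
    rw [e]
    have k1 := CH_subadd h0 (Uni.dg (r * t + t) (Yt 0)) (Uni.dg (r * t + t) (Yt 1))
      (fun ω => (dg2 (r * t) Yt ω, (O (r * t) ω, T ω)))
    have k2 := dg_add_le hq (r * t) t (Yt 0)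
      (W := fun ω => (dg2 (r * t) Yt ω, (O (r * t) ω, T ω)))
      (fun ω ω' _ _ e => (Prod.ext_iff.mp (Prod.ext_iff.mp e).1).1)
    have k3 := dg_add_le hq (r * t) t (Yt 1)
      (W := fun ω => (dg2 (r * t) Yt ω, (O (r * t) ω, T ω)))
      (fun ω ω' _ _ e => (Prod.ext_iff.mp (Prod.ext_iff.mp e).1).2)
    have k4 : CH q (dg2 (r * t + t) Yt) (fun ω => (dg2 (r * t) Yt ω, (O (r * t) ω, T ω))) =
      CH q (fun ω => (Uni.dg (r * t + t) (Yt 0) ω, Uni.dg (r * t + t) (Yt 1) ω))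
      (fun ω => (dg2 (r * t) Yt ω, (O (r * t) ω, T ω))) := rfl
    linarith
  refine (Finset.sum_le_sum k).trans ?_
  rw [Finset.sum_const, Finset.card_range, nsmul_eq_mul]
  have b1 : ((X / t : ℕ) : ℝ) * t ≤ X := by exact_mod_cast Nat.div_mul_le_self X t
  have := mul_le_mul_of_nonneg_right b1 hl2.le
  linarith

end Ocs

open Ocs in
/-- A second proof of OCSB (the official one is `Pool.K2S.ocsb_thm` of H8/OCS/Ocb88). -/
theorem Ocs.ocsb' (hOC : Pool.OCS.OCSStmt) : OCSBStmt := by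
  classical
  intro B c ca hc hca
  have hl2 : 0 < Real.log 2 := Real.log_pos (by norm_num)
  have hl21 : Real.log 2 ≤ 1 := by
    have := Real.log_two_lt_d9
    linarith
  obtain ⟨ca1, hca1⟩ : ∃ ca1, ca1 = min ca 1 := ⟨_, rfl⟩
  have hca1p : 0 < ca1 := by rw [hca1]; exact lt_min hca one_pos
  have hca1c : ca1 ≤ ca := by rw [hca1]; exact min_le_left _ _
  obtain ⟨x₁, lm, κ, ϖ₀, ι₀, ε₀, X₁, hx₁, hlm, hκ, hκ1, hϖ₀, hι₀, hε₀, hOC'⟩ :=
    hOC (2 * B + 4) c (ca1 / 4) hc (by positivity)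
  obtain ⟨cK, hcK⟩ : ∃ cK, cK = Real.log (2 * ((2 : ℝ) ^ (2 * B) + 5) + 1) := ⟨_, rfl⟩
  have hcK0 : 0 ≤ cK := by
    rw [hcK]
    refine Real.log_nonneg ?_
    have : (0 : ℝ) < 2 ^ (2 * B) := by positivity
    linarith
  obtain ⟨M, hM⟩ := exists_nat_gt (8 * cK / ι₀ + 4 * B / x₁ + 2 / κ +
    32 * cK / (ca1 * Real.log 2) + 1)
  obtain ⟨t₀, ht₀⟩ := exists_nat_gt (16 * cK / (ι₀ * Real.log 2))
  refine ⟨x₁ / 2, lm, κ, ϖ₀ * (ca1 / 4) * (κ / 2), ι₀ * ca1 / 128, ε₀ * ca1 / 128, max X₁ M,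
    t₀ + 1, by positivity, hlm, hκ, hκ1, by positivity, by positivity, by positivity, ?_⟩
  intro Ω β Λ Θ _ p b L T y om be m0 th S E nu X t hd hX ht htX h1 h1' h2 h3 h4 h5 h6 h7
  have hXX : X₁ ≤ X := (le_max_left _ _).trans hX
  have hXM : (M : ℝ) ≤ X := by exact_mod_cast (le_max_right _ _).trans hX
  have hp := hd.law
  have h0 := hp.nonneg
  have q1 : 0 ≤ 8 * cK / ι₀ := by positivity
  have q2 : 0 ≤ 4 * B / x₁ := by positivity
  have q3 : 0 < 2 / κ := by positivity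
  have q4 : 0 ≤ 32 * cK / (ca1 * Real.log 2) := by positivity
  have hXpos : (0 : ℝ) < X := by linarith
  have r1 : 8 * cK ≤ ι₀ * X := by
    have : 8 * cK / ι₀ ≤ X := by linarith
    rw [div_le_iff₀ hι₀] at this
    linarith
  have r2 : 4 * B ≤ x₁ * X := by
    have : 4 * B / x₁ ≤ X := by linarith
    rw [div_le_iff₀ hx₁] at this
    linarith
  have r3 : 2 ≤ κ * X := by
    have : 2 / κ ≤ X := by linarith
    rw [div_le_iff₀ hκ] at this
    linarith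
  have r4 : 8 * cK ≤ ca1 / 4 * X * Real.log 2 := by
    have : 32 * cK / (ca1 * Real.log 2) ≤ X := by linarith
    rw [div_le_iff₀ (by positivity)] at this
    linarith
  have r5 : 16 * cK ≤ ι₀ * t * Real.log 2 := by
    have h : (t₀ : ℝ) ≤ t := by exact_mod_cast (Nat.le_succ t₀).trans ht
    have : 16 * cK / (ι₀ * Real.log 2) ≤ t := by linarith
    rw [div_le_iff₀ (by positivity)] at this
    linarith
  have ht1 : 1 ≤ t := by omega
  -- the number of blocks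
  obtain ⟨h, hh⟩ : ∃ h, h = ⌊κ * X⌋₊ := ⟨_, rfl⟩
  have hh1 : (h : ℝ) ≤ κ * X := by rw [hh]; exact Nat.floor_le (by positivity)
  have hh2 : κ * X / 2 ≤ h := by
    have : κ * X < h + 1 := by rw [hh]; exact Nat.lt_floor_add_one _
    linarith
  have hhpos : 0 < h := by
    have : (0 : ℝ) < h := by linarith
    exact_mod_cast this
  -- the laws of the contexts
  obtain ⟨cd, hcd⟩ : ∃ cd : β → Ω → ℝ, cd = fun z => Pool.Agent.H49.Ent.cond p b z := ⟨_, rfl⟩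
  have hcl : ∀ ω, 0 < p ω → IsLaw (cd (b ω)) := fun ω hω => by
    rw [hcd]; exact Uni.isLaw_cond' h0 b (law_pos h0 b hω)
  have hcp : ∀ ω, 0 < p ω → ∀ v, 0 < cd (b ω) v → 0 < p v := fun ω hω v hv => by
    rw [hcd] at hv
    exact ((cond_pos_iff h0 b (b ω) v).1 hv).1
  obtain ⟨F1, hF1⟩ : ∃ F1 : β → ℝ, F1 = fun z => Pool.KVA.MI (cd z) T L (fun _ => ()) :=
    ⟨_, rfl⟩
  obtain ⟨F2, hF2⟩ : ∃ F2 : β → ℝ, F2 = fun z => X * Real.log 2 - CH (cd z) (Uni.dg X th) L :=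
    ⟨_, rfl⟩
  obtain ⟨F3, hF3⟩ : ∃ F3 : β → ℝ, F3 = fun z => CH (cd z) (Uni.dg X nu) T -
    CH (cd z) (Uni.dg X nu) (fun ω => ((dg2 X y ω, (dg2 X om ω, Uni.dg X be ω)), T ω)) :=
    ⟨_, rfl⟩
  obtain ⟨F4, hF4⟩ : ∃ F4 : β → ℝ, F4 = fun z => 2 * X * Real.log 2 - ∑ r ∈ range (X / t),
    CH (cd z) (dg2 ((r + 1) * t) (yt y om th))
      (fun ω => (dg2 (r * t) (yt y om th) ω, (dg2 (r * t) om ω, T ω))) := ⟨_, rfl⟩
  obtain ⟨F6, hF6⟩ : ∃ F6 : β → ℝ, F6 = fun z => Pool.KAF.Pr (dbl (cd z) L)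
    {w | ∀ j, |S j w.1 - S j w.2| < 2 ^ (2 * B) * (2 : ℝ) ^ (-(x₁ * X))} := ⟨_, rfl⟩
  obtain ⟨F7, hF7⟩ : ∃ F7 : β → ℝ, F7 = fun z => Pool.KAF.Pr (dbl (cd z) L)
    {w | |E w.1 - E w.2| < 2 ^ (2 * B) * (2 : ℝ) ^ (-(x₁ * X))} := ⟨_, rfl⟩
  obtain ⟨Gf, hGf⟩ : ∃ Gf : β → ℝ, Gf = fun z => CH (cd z) (Uni.dg X (om 0))
      (fun ω => ((dg2 X (yt y om th) ω, (Uni.dg X (cc om be S) ω, Uni.dg X (kk om E) ω)),
        T ω)) := ⟨_, rfl⟩
  have hscale : (2 : ℝ) ^ (2 * B) * (2 : ℝ) ^ (-(x₁ * X)) ≤ (2 : ℝ) ^ (-(x₁ / 2 * X)) := by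
    rw [← Real.rpow_natCast, ← Real.rpow_add (by norm_num)]
    refine Real.rpow_le_rpow_of_exponent_le (by norm_num) ?_
    push_cast
    linarith
  -- the means
  have m1 : Ex p (fun ω => F1 (b ω)) ≤ ι₀ * ca1 / 128 * X := by
    rw [hF1, hcd]
    exact (le_of_eq (Uni.Ex_MI h0 b T L)).trans h1
  have m2 : Ex p (fun ω => F2 (b ω)) ≤ ι₀ * ca1 / 128 * X * Real.log 2 := by
    rw [hF2, hcd]
    have e1 : Ex p (fun ω => X * Real.log 2 - CH (Pool.Agent.H49.Ent.cond p b (b ω))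
        (Uni.dg X th) L) = X * Real.log 2 - CH p (Uni.dg X th) (fun ω => (L ω, b ω)) := by
      rw [Ex_sub, Ex_const hp.sum_one, Pool.KX.JBG.Ex_CH h0 (Uni.dg X th) L b]
    refine (le_of_eq e1).trans ?_
    linarith
  have m3 : Ex p (fun ω => F3 (b ω)) ≤ ι₀ * ca1 / 128 * X := by
    rw [hF3, hcd]
    refine le_trans (le_of_eq ?_) h2
    show Ex p (fun ω => CH (Pool.Agent.H49.Ent.cond p b (b ω)) (Uni.dg X nu) T -
      CH (Pool.Agent.H49.Ent.cond p b (b ω)) (Uni.dg X nu)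
        (fun ω => ((dg2 X y ω, (dg2 X om ω, Uni.dg X be ω)), T ω))) = _
    rw [Ex_sub, Uni.Ex_swap h0, Uni.Ex_swap' h0 b (Uni.dg X nu)
      (fun ω => (dg2 X y ω, (dg2 X om ω, Uni.dg X be ω))) T]
  have m4 : Ex p (fun ω => F4 (b ω)) ≤ ι₀ * ca1 / 128 * X * Real.log 2 := by
    rw [hF4, hcd]
    have e1 : Ex p (fun ω => 2 * X * Real.log 2 - ∑ r ∈ range (X / t),
        CH (Pool.Agent.H49.Ent.cond p b (b ω)) (dg2 ((r + 1) * t) (yt y om th))
          (fun ω => (dg2 (r * t) (yt y om th) ω, (dg2 (r * t) om ω, T ω)))) =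
        2 * X * Real.log 2 - ∑ r ∈ range (X / t), CH p (dg2 ((r + 1) * t) (yt y om th))
          (fun ω => (dg2 (r * t) (yt y om th) ω, (dg2 (r * t) om ω, (b ω, T ω)))) := by
      rw [Ex_sub, Ex_const hp.sum_one]
      congr 1
      unfold Ex
      simp_rw [Finset.mul_sum]
      rw [Finset.sum_comm]
      refine Finset.sum_congr rfl fun r _ => ?_
      exact Ex_swap3 h0 b (dg2 ((r + 1) * t) (yt y om th)) (dg2 (r * t) (yt y om th))
        (dg2 (r * t) om) T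
    refine (le_of_eq e1).trans ?_
    linarith
  have m6 : Ex p (fun ω => F6 (b ω)) ≤ ε₀ * ca1 / 128 := by
    rw [hF6, hcd]
    refine (le_of_eq (Uni.Ex_Pr_dbl h0 L b
      (fun _ => {w | ∀ j, |S j w.1 - S j w.2| < 2 ^ (2 * B) * (2 : ℝ) ^ (-(x₁ * X))}))).trans ?_
    refine le_trans ?_ h6
    refine Uni.Pr_le_of (fun w => glue_nonneg h0 h0 w) fun w _ hw => ?_
    have hw' : ∀ j, |S j w.1 - S j w.2| < 2 ^ (2 * B) * (2 : ℝ) ^ (-(x₁ * X)) := hw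
    exact fun j => (hw' j).trans_le hscale
  have m7 : Ex p (fun ω => F7 (b ω)) ≤ ε₀ * ca1 / 128 := by
    rw [hF7, hcd]
    refine (le_of_eq (Uni.Ex_Pr_dbl h0 L b
      (fun _ => {w | |E w.1 - E w.2| < 2 ^ (2 * B) * (2 : ℝ) ^ (-(x₁ * X))}))).trans ?_
    refine le_trans ?_ h7
    refine Uni.Pr_le_of (fun w => glue_nonneg h0 h0 w) fun w _ hw => ?_
    have hw' : |E w.1 - E w.2| < 2 ^ (2 * B) * (2 : ℝ) ^ (-(x₁ * X)) := hw
    exact hw'.trans_le hscale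
  have mG : ca1 * X * Real.log 2 ≤ Ex p (fun ω => Gf (b ω)) := by
    rw [hGf, hcd]
    refine le_trans ?_ (le_of_eq (Uni.Ex_swap' h0 b (Uni.dg X (om 0)) (fun ω =>
      (dg2 X (yt y om th) ω, (Uni.dg X (cc om be S) ω, Uni.dg X (kk om E) ω))) T).symm)
    refine le_trans ?_ h4
    exact mul_le_mul_of_nonneg_right (mul_le_mul_of_nonneg_right hca1c hXpos.le) hl2.le
  -- the signs
  have n1 : ∀ ω, 0 < p ω → 0 ≤ F1 (b ω) := fun ω hω => by
    rw [hF1]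
    have := CH_subadd (hcl ω hω).nonneg T L (fun _ => ())
    show 0 ≤ CH (cd (b ω)) T (fun _ => ()) + CH (cd (b ω)) L (fun _ => ()) -
      CH (cd (b ω)) (fun v => (T v, L v)) (fun _ => ())
    linarith
  have n2 : ∀ ω, 0 < p ω → 0 ≤ F2 (b ω) := fun ω hω => by
    rw [hF2]
    have := Uni.dg_card (hcl ω hω) X (x := th) (fun v hv => hd.hth v (hcp ω hω v hv)) L
    show 0 ≤ X * Real.log 2 - CH (cd (b ω)) (Uni.dg X th) L
    linarith
  have n3 : ∀ ω, 0 < p ω → 0 ≤ F3 (b ω) := fun ω hω => by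
    rw [hF3]
    have : CH (cd (b ω)) (Uni.dg X nu)
        (fun v => ((dg2 X y v, (dg2 X om v, Uni.dg X be v)), T v)) ≤
        CH (cd (b ω)) (Uni.dg X nu) T :=
      CH_mono_cond (hcl ω hω).nonneg fun _ _ _ _ e => (Prod.ext_iff.mp e).2
    show 0 ≤ CH (cd (b ω)) (Uni.dg X nu) T - CH (cd (b ω)) (Uni.dg X nu)
      (fun v => ((dg2 X y v, (dg2 X om v, Uni.dg X be v)), T v))
    linarith
  have n4 : ∀ ω, 0 < p ω → 0 ≤ F4 (b ω) := fun ω hω => by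
    rw [hF4]
    have := tiles_le (hcl ω hω) (yt y om th) (fun s => dg2 s om) T X t
    show 0 ≤ 2 * X * Real.log 2 - ∑ r ∈ range (X / t),
      CH (cd (b ω)) (dg2 ((r + 1) * t) (yt y om th))
        (fun ω => (dg2 (r * t) (yt y om th) ω, (dg2 (r * t) om ω, T ω)))
    linarith
  have n6 : ∀ ω, 0 < p ω → 0 ≤ F6 (b ω) := fun ω hω => by
    rw [hF6]
    exact law_nonneg (fun w => glue_nonneg (hcl ω hω).nonneg (hcl ω hω).nonneg w) _ _
  have n7 : ∀ ω, 0 < p ω → 0 ≤ F7 (b ω) := fun ω hω => by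
    rw [hF7]
    exact law_nonneg (fun w => glue_nonneg (hcl ω hω).nonneg (hcl ω hω).nonneg w) _ _
  have nG : ∀ ω, 0 < p ω → Gf (b ω) ≤ X * Real.log 2 := fun ω hω => by
    rw [hGf]
    exact Uni.dg_card (hcl ω hω) X (x := om 0) (fun v hv => hd.hom 0 v (hcp ω hω v hv)) _
  -- the good values
  obtain ⟨G, hG⟩ : ∃ G : β → Prop, G = fun z => F1 z ≤ ι₀ * X ∧ F2 z ≤ ι₀ * X * Real.log 2 ∧
    F3 z ≤ ι₀ / 2 * X ∧ F4 z ≤ ι₀ / 2 * X * Real.log 2 ∧ F6 z ≤ ε₀ ∧ F7 z ≤ ε₀ ∧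
    ca1 / 2 * X * Real.log 2 ≤ Gf z := ⟨_, rfl⟩
  have hXl : 0 < X * Real.log 2 := by positivity
  have hGmass : ca1 / 4 ≤ Pe p (fun ω => G (b ω)) := by
    have p1 : Pe p (fun ω => ι₀ * X < F1 (b ω)) ≤ ca1 / 128 := by
      refine (Uni.Pe_markov hp (fun ω => F1 (b ω)) n1 (by positivity)).trans ?_
      rw [div_le_iff₀ (by positivity)]
      linarith
    have p2 : Pe p (fun ω => ι₀ * X * Real.log 2 < F2 (b ω)) ≤ ca1 / 128 := by
      refine (Uni.Pe_markov hp (fun ω => F2 (b ω)) n2 (by positivity)).trans ?_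
      rw [div_le_iff₀ (by positivity)]
      linarith
    have p3 : Pe p (fun ω => ι₀ / 2 * X < F3 (b ω)) ≤ ca1 / 64 := by
      refine (Uni.Pe_markov hp (fun ω => F3 (b ω)) n3 (by positivity)).trans ?_
      rw [div_le_iff₀ (by positivity)]
      linarith
    have p4 : Pe p (fun ω => ι₀ / 2 * X * Real.log 2 < F4 (b ω)) ≤ ca1 / 64 := by
      refine (Uni.Pe_markov hp (fun ω => F4 (b ω)) n4 (by positivity)).trans ?_
      rw [div_le_iff₀ (by positivity)]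
      linarith
    have p6 : Pe p (fun ω => ε₀ < F6 (b ω)) ≤ ca1 / 128 := by
      refine (Uni.Pe_markov hp (fun ω => F6 (b ω)) n6 (by positivity)).trans ?_
      rw [div_le_iff₀ (by positivity)]
      linarith
    have p7 : Pe p (fun ω => ε₀ < F7 (b ω)) ≤ ca1 / 128 := by
      refine (Uni.Pe_markov hp (fun ω => F7 (b ω)) n7 (by positivity)).trans ?_
      rw [div_le_iff₀ (by positivity)]
      linarith
    have pG : ca1 / 2 ≤ Pe p (fun ω => ca1 / 2 * X * Real.log 2 ≤ Gf (b ω)) := by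
      refine le_trans (le_of_eq ?_) (Uni.Pe_reverse hp (fun ω => Gf (b ω)) hXl nG mG
        (by positivity))
      field_simp
      ring
    have hcov : Pe p (fun ω => ca1 / 2 * X * Real.log 2 ≤ Gf (b ω)) ≤
        Pe p (fun ω => G (b ω) ∨ (ι₀ * X < F1 (b ω) ∨ (ι₀ * X * Real.log 2 < F2 (b ω) ∨
          (ι₀ / 2 * X < F3 (b ω) ∨ (ι₀ / 2 * X * Real.log 2 < F4 (b ω) ∨ (ε₀ < F6 (b ω) ∨
            ε₀ < F7 (b ω))))))) := by
      refine Uni.Pe_le_of h0 fun ω _ hω => ?_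
      by_cases c1 : ι₀ * X < F1 (b ω)
      · exact Or.inr (Or.inl c1)
      by_cases c2 : ι₀ * X * Real.log 2 < F2 (b ω)
      · exact Or.inr (Or.inr (Or.inl c2))
      by_cases c3 : ι₀ / 2 * X < F3 (b ω)
      · exact Or.inr (Or.inr (Or.inr (Or.inl c3)))
      by_cases c4 : ι₀ / 2 * X * Real.log 2 < F4 (b ω)
      · exact Or.inr (Or.inr (Or.inr (Or.inr (Or.inl c4))))
      by_cases c6 : ε₀ < F6 (b ω)
      · exact Or.inr (Or.inr (Or.inr (Or.inr (Or.inr (Or.inl c6)))))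
      by_cases c7 : ε₀ < F7 (b ω)
      · exact Or.inr (Or.inr (Or.inr (Or.inr (Or.inr (Or.inr c7)))))
      left
      rw [hG]
      exact ⟨not_lt.mp c1, not_lt.mp c2, not_lt.mp c3, not_lt.mp c4, not_lt.mp c6, not_lt.mp c7,
        hω⟩
    have k1 := Uni.Pe_or_le h0 (fun ω => G (b ω)) (fun ω => (ι₀ * X < F1 (b ω) ∨
      (ι₀ * X * Real.log 2 < F2 (b ω) ∨ (ι₀ / 2 * X < F3 (b ω) ∨
      (ι₀ / 2 * X * Real.log 2 < F4 (b ω) ∨ (ε₀ < F6 (b ω) ∨ ε₀ < F7 (b ω)))))))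
    have k2 := Uni.Pe_or_le h0 (fun ω => ι₀ * X < F1 (b ω)) (fun ω =>
      (ι₀ * X * Real.log 2 < F2 (b ω) ∨ (ι₀ / 2 * X < F3 (b ω) ∨
      (ι₀ / 2 * X * Real.log 2 < F4 (b ω) ∨ (ε₀ < F6 (b ω) ∨ ε₀ < F7 (b ω))))))
    have k3 := Uni.Pe_or_le h0 (fun ω => ι₀ * X * Real.log 2 < F2 (b ω)) (fun ω =>
      (ι₀ / 2 * X < F3 (b ω) ∨ (ι₀ / 2 * X * Real.log 2 < F4 (b ω) ∨ (ε₀ < F6 (b ω) ∨
      ε₀ < F7 (b ω)))))
    have k4 := Uni.Pe_or_le h0 (fun ω => ι₀ / 2 * X < F3 (b ω)) (fun ω =>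
      (ι₀ / 2 * X * Real.log 2 < F4 (b ω) ∨ (ε₀ < F6 (b ω) ∨ ε₀ < F7 (b ω))))
    have k5 := Uni.Pe_or_le h0 (fun ω => ι₀ / 2 * X * Real.log 2 < F4 (b ω))
      (fun ω => (ε₀ < F6 (b ω) ∨ ε₀ < F7 (b ω)))
    have k6 := Uni.Pe_or_le h0 (fun ω => ε₀ < F6 (b ω)) (fun ω => ε₀ < F7 (b ω))
    linarith
  -- the events
  obtain ⟨n, hn⟩ : ∃ n, n = X / h := ⟨_, rfl⟩
  have hex : ∀ z, G z → 0 < law p b z → ∃ (r : Fin n) (A : Ω → Prop),
      ϖ₀ ≤ Pe (Pool.Agent.H49.Ent.cond p b z) A ∧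
      (1 - c) * h * Real.log 2 < CH (Pool.Agent.H49.Ent.cond (Pool.Agent.H49.Ent.cond p b z) A True)
        (Uni.dg (((r : ℕ) + 1) * h) nu) (fun ω => (Uni.dg ((r : ℕ) * h) nu ω, T ω)) := by
    intro z hz hlz
    rw [hG] at hz
    obtain ⟨g1, g2, g3, g4, g6, g7, gG⟩ := hz
    rw [hF1, hcd] at g1
    rw [hF2, hcd] at g2
    rw [hF3, hcd] at g3
    rw [hF4, hcd] at g4
    rw [hF6, hcd] at g6
    rw [hF7, hcd] at g7
    rw [hGf, hcd] at gG
    have hq := Uni.isLaw_cond' h0 b hlz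
    obtain ⟨j, hj, A, hE1, hE2⟩ := ocs_one hOC' (OCSData.cond hd hlz) hXX ht1 htX hcK r1 r5 r4 g1
      (by
        have : X * Real.log 2 - CH (Pool.Agent.H49.Ent.cond p b z) (Uni.dg X th) L ≤
          ι₀ * X * Real.log 2 := g2
        linarith)
      g3
      (by
        have : 2 * X * Real.log 2 - ∑ r ∈ range (X / t),
          CH (Pool.Agent.H49.Ent.cond p b z) (dg2 ((r + 1) * t) (yt y om th))
            (fun ω => (dg2 (r * t) (yt y om th) ω, (dg2 (r * t) om ω, T ω))) ≤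
          ι₀ / 2 * X * Real.log 2 := g4
        linarith)
      (by
        have : ca1 / 2 * X * Real.log 2 ≤ CH (Pool.Agent.H49.Ent.cond p b z) (Uni.dg X (om 0))
          (fun ω => ((dg2 X (yt y om th) ω, (Uni.dg X (cc om be S) ω, Uni.dg X (kk om E) ω)),
            T ω)) := gG
        linarith) g6 g7
    rw [← hh] at hj hE2
    have hjn : j < n := by
      rw [hn]
      exact (Nat.le_div_iff_mul_le hhpos).2 hj
    exact ⟨⟨j, hjn⟩, A, hE1, hE2⟩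
  obtain ⟨r, A, hA1, hA2⟩ := Uni.union_event hp b G hϖ₀ (by positivity : 0 < ca1 / 4)
    ((1 - c) * h * Real.log 2) (fun (r : Fin n) => Uni.dg (((r : ℕ) + 1) * h) nu)
    (fun (r : Fin n) ω => (Uni.dg ((r : ℕ) * h) nu ω, T ω)) hGmass hex
  have hrX : ((r : ℕ) + 1) * h ≤ X := by
    have h1 : (r : ℕ) + 1 ≤ X / h := by
      rw [← hn]
      exact r.2
    exact (Nat.le_div_iff_mul_le hhpos).1 h1
  have hnr : (0 : ℝ) < n := by
    have : 0 < n := lt_of_le_of_lt (Nat.zero_le _) r.2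
    exact_mod_cast this
  have hn2 : (n : ℝ) ≤ 2 / κ := by
    have e1 : n * h ≤ X := by rw [hn]; exact Nat.div_mul_le_self X h
    have e2 : (n : ℝ) * h ≤ X := by exact_mod_cast e1
    rw [le_div_iff₀ hκ]
    have e3 : (n : ℝ) * (κ * X / 2) ≤ X := (mul_le_mul_of_nonneg_left hh2 hnr.le).trans e2
    have e4 : (n : ℝ) * κ * X ≤ 2 * X := by linarith
    exact le_of_mul_le_mul_right e4 hXpos
  have hPeA : ϖ₀ * (ca1 / 4) * (κ / 2) ≤ Pe p A := by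
    refine le_trans ?_ hA1
    rw [le_div_iff₀ hnr]
    have e1 : (n : ℝ) * κ ≤ 2 := by
      rw [le_div_iff₀ hκ] at hn2
      exact hn2
    have e2 : ϖ₀ * (ca1 / 4) * ((n : ℝ) * κ) ≤ ϖ₀ * (ca1 / 4) * 2 :=
      mul_le_mul_of_nonneg_left e1 (by positivity)
    linarith
  have hfin := h5 (r : ℕ) (by rw [← hh]; exact hrX) A hPeA
  rw [← hh] at hfin
  have hqA : IsLaw (Pool.Agent.H49.Ent.cond p A True) :=
    isLaw_cond hp (lt_of_lt_of_le (by positivity) hPeA)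
  have hsw : CH (Pool.Agent.H49.Ent.cond p A True) (Uni.dg (((r : ℕ) + 1) * h) nu)
      (fun ω => ((Uni.dg ((r : ℕ) * h) nu ω, T ω), b ω)) =
      CH (Pool.Agent.H49.Ent.cond p A True) (Uni.dg (((r : ℕ) + 1) * h) nu)
      (fun ω => (Uni.dg ((r : ℕ) * h) nu ω, (b ω, T ω))) := by
    refine CH_congr hqA.nonneg ?_ ?_ ?_ ?_
    · intro ω ω' _ _ e
      exact (Prod.ext_iff.mp e).1
    · intro ω ω' _ _ e
      exact (Prod.ext_iff.mp e).1
    · intro ω ω' _ _ e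
      have e1 := Prod.ext_iff.mp e
      have e2 := Prod.ext_iff.mp e1.1
      exact Prod.ext e2.1 (Prod.ext e1.2 e2.2)
    · intro ω ω' _ _ e
      have e1 := Prod.ext_iff.mp e
      have e2 := Prod.ext_iff.mp e1.2
      exact Prod.ext (Prod.ext e1.1 e2.2) e2.1
  linarith

end Pool.K2S
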