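import Pool.Agent.H88.OCS.OcbDefs
import Pool.Agent.H97.OC.OCD

/-!
# Theorem OCS for real variables: tools
-/

set_option autoImplicit false

namespace Pool.K2S

open Finset Real
open Pool.Agent.H49.Ent Pool.Agent.H32.Dense Pool.STK Pool.KA

namespace Ocs

variable {Ω S T U V Λ Θ : Type} [Fintype Ω]

/-- Two rounded numbers. -/
theorem near_pair {a b : ℝ} {e : ℕ} (h : |a - 2 ^ e * b| ≤ 3) :
    |(⌊a⌋ : ℝ) - 2 ^ e * ⌊b⌋| ≤ 2 ^ e + 4 ∧ |(⌊b⌋ : ℝ) - ⌊a⌋ / 2 ^ e| ≤ 5 := by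
  have h1 := abs_le.1 h
  have a1 := Int.floor_le a
  have a2 := Int.lt_floor_add_one a
  have b1 := Int.floor_le b
  have b2 := Int.lt_floor_add_one b
  have he : (1 : ℝ) ≤ 2 ^ e := one_le_pow₀ (by norm_num)
  have he0 : (0 : ℝ) < 2 ^ e := by positivity
  constructor
  · rw [abs_le]
    constructor <;> nlinarith
  · rw [abs_le, neg_le_sub_iff_le_add, sub_le_iff_le_add, div_le_iff₀ he0]
    constructor
    · nlinarith
    · have : (⌊b⌋ : ℝ) ≤ 5 + ⌊a⌋ / 2 ^ e := by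
        have h3 : (⌊b⌋ : ℝ) - 5 ≤ ⌊a⌋ / 2 ^ e := by
          rw [le_div_iff₀ he0]
          nlinarith
        linarith
      exact this

theorem scale_le {X p : ℕ} (hp : p ≤ X) {z K : ℝ} (h : |(2 : ℝ) ^ X * z| ≤ K) :
    |(2 : ℝ) ^ p * z| ≤ K := by
  refine le_trans ?_ h
  rw [abs_mul, abs_mul, abs_of_pos (by positivity : (0 : ℝ) < 2 ^ p),
    abs_of_pos (by positivity : (0 : ℝ) < 2 ^ X)]
  exact mul_le_mul_of_nonneg_right (pow_le_pow_right₀ (by norm_num) hp) (abs_nonneg _)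

/-- Change of the variable and of the condition. -/
theorem CH_swap {q : Ω → ℝ} (h0 : ∀ ω, 0 ≤ q ω) {A' : Ω → S} {B' : Ω → T} {A : Ω → U} {B : Ω → V}
    {c₁ c₂ : ℝ} (h1 : CH q B B' ≤ c₁) (h2 : CH q A' A ≤ c₂) :
    CH q A' B' ≤ CH q A B + c₁ + c₂ := by
  have k1 := CH_le_add h0 A' B B'
  have k2 := CH_le_add h0 A' A (fun ω => (B ω, B' ω))
  have k3 : CH q A (fun ω => (B ω, B' ω)) ≤ CH q A B :=
    CH_mono_cond h0 fun _ _ _ _ e => (Prod.ext_iff.mp e).1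
  have k4 : CH q A' (fun ω => (A ω, (B ω, B' ω))) ≤ CH q A' A :=
    CH_mono_cond h0 fun _ _ _ _ e => (Prod.ext_iff.mp e).1
  linarith

theorem CH_vec {q : Ω → ℝ} (h0 : ∀ ω, 0 ≤ q ω) (W : Ω → Fin 2 → ℤ) (Z : Ω → T) :
    CH q W Z ≤ CH q (fun ω => W ω 0) Z + CH q (fun ω => W ω 1) Z := by
  refine le_trans ?_ (CH_subadd h0 (fun ω => W ω 0) (fun ω => W ω 1) Z)
  refine CH_mono_left h0 fun ω ω' _ _ e => ?_
  have e1 := Prod.ext_iff.mp (Prod.ext_iff.mp e).1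
  funext j
  fin_cases j
  · exact e1.1
  · exact e1.2

theorem CH_add_det {q : Ω → ℝ} (h0 : ∀ ω, 0 ≤ q ω) {W : Ω → S} {τ : Ω → U} {Z : Ω → T}
    (h : Det q Z τ) : CH q (fun ω => (W ω, τ ω)) Z ≤ CH q W Z := by
  have h1 := CH_subadd h0 W τ Z
  rw [CH_eq_zero h0 h] at h1
  linarith

theorem CH_det_add {q : Ω → ℝ} (h0 : ∀ ω, 0 ≤ q ω) {W : Ω → S} {τ : Ω → U} {Z : Ω → T}
    (h : Det q Z τ) : CH q (fun ω => (τ ω, W ω)) Z ≤ CH q W Z := by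
  have h1 := CH_subadd h0 τ W Z
  rw [CH_eq_zero h0 h] at h1
  linarith

/-- Two numbers which are near functions of the condition. -/
theorem CH_vec_near {q : Ω → ℝ} (hq : IsLaw q) {W : Ω → Fin 2 → ℤ} {Z : Ω → T}
    {g : Fin 2 → Ω → ℝ} (hg : ∀ j, Det q Z (g j)) {K : ℝ} (hK : 0 ≤ K)
    (h : ∀ j ω, 0 < q ω → |(W ω j : ℝ) - g j ω| ≤ K) :
    CH q W Z ≤ 2 * Real.log (2 * K + 1) := by
  have h1 := CH_vec hq.nonneg W Z
  have h2 := Sel.CH_near hq (fun ω => W ω 0) Z (g 0) (hg 0) hK (h 0)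
  have h3 := Sel.CH_near hq (fun ω => W ω 1) Z (g 1) (hg 1) hK (h 1)
  linarith

theorem CH_pair_near {q : Ω → ℝ} (hq : IsLaw q) {W₀ W₁ : Ω → ℤ} {Z : Ω → T}
    {g₀ g₁ : Ω → ℝ} (hg₀ : Det q Z g₀) (hg₁ : Det q Z g₁) {K : ℝ} (hK : 0 ≤ K)
    (h₀ : ∀ ω, 0 < q ω → |(W₀ ω : ℝ) - g₀ ω| ≤ K)
    (h₁ : ∀ ω, 0 < q ω → |(W₁ ω : ℝ) - g₁ ω| ≤ K) :
    CH q (fun ω => (W₀ ω, W₁ ω)) Z ≤ 2 * Real.log (2 * K + 1) := by
  have h1 := CH_subadd hq.nonneg W₀ W₁ Z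
  have h2 := Sel.CH_near hq W₀ Z g₀ hg₀ hK h₀
  have h3 := Sel.CH_near hq W₁ Z g₁ hg₁ hK h₁
  linarith

/-- A tile of digits. -/
theorem tile {q : Ω → ℝ} (h0 : ∀ ω, 0 ≤ q ω) (R : ℕ → Ω → S) (C : Ω → T) (a : ℕ) :
    ∀ n : ℕ, CH q (R (a + n)) (fun ω => (R a ω, C ω)) ≤
      ∑ i ∈ range n, CH q (R (a + i + 1)) (fun ω => (R (a + i) ω, C ω)) := by
  intro n
  induction n with
  | zero =>
    rw [Finset.sum_range_zero, add_zero]
    exact (CH_eq_zero h0 (X := R a) (W := fun ω => (R a ω, C ω)) fun _ _ _ _ e =>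
      (Prod.ext_iff.mp e).1).le
  | succ n ih =>
    rw [Finset.sum_range_succ]
    have h1 := CH_le_add h0 (R (a + (n + 1))) (R (a + n)) (fun ω => (R a ω, C ω))
    have h2 : CH q (R (a + (n + 1))) (fun ω => (R (a + n) ω, (R a ω, C ω))) ≤
        CH q (R (a + n + 1)) (fun ω => (R (a + n) ω, C ω)) :=
      CH_mono_cond h0 fun ω ω' _ _ e => by
        have e1 := Prod.ext_iff.mp e
        exact Prod.ext e1.1 (Prod.ext_iff.mp e1.2).2
    linarith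

/-- The exponents of the scaling. -/
def ex (B : ℕ) (j : Fin 2) : ℕ := if j = 0 then 2 * B else B

theorem ex_le (B : ℕ) (j : Fin 2) : (2 : ℝ) ^ ex B j ≤ 2 ^ (2 * B) := by
  refine pow_le_pow_right₀ (by norm_num) ?_
  unfold ex
  split_ifs <;> omega

theorem one_le_ex (B : ℕ) (j : Fin 2) : (1 : ℝ) ≤ 2 ^ ex B j := one_le_pow₀ (by norm_num)

theorem le_ex (B : ℕ) (j : Fin 2) : (2 : ℝ) ^ B ≤ 2 ^ ex B j := by
  refine pow_le_pow_right₀ (by norm_num) ?_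
  unfold ex
  split_ifs <;> omega

open Classical in
/-- The data with integer variables. -/
noncomputable def mkO (B : ℕ) (q : Ω → ℝ) (L : Ω → Λ) (T : Ω → Θ) (fy fom : Fin 2 → Λ → ℝ)
    (fbe : Λ → ℝ) (fth : Θ → ℝ) (fS : Fin 2 → Θ → ℝ) (fE : Θ → ℝ) (nu : Ω → ℝ) (X : ℕ) :
    Pool.OCS.Dat where
  Om := Ω
  Lam := Λ
  Tau := Θ
  P := q
  L := L
  T := T
  y := fun l j => ⌊(2 : ℝ) ^ X * (2 ^ ex B j * fy j l)⌋
  om := fun l j => ⌊(2 : ℝ) ^ X * (2 ^ ex B j * fom j l)⌋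
  be := fun l => ⌊(2 : ℝ) ^ X * fbe l⌋
  N := Uni.dg X nu
  th := fun t => if 0 ≤ fth t ∧ fth t < 1 then fth t else 0
  S := fun t j => if |fS j t| ≤ 2 ^ B then fS j t / 2 ^ ex B j else 0
  E := fun t => if |fE t| ≤ 2 ^ B then fE t / 2 ^ B else 0
  X := X

/-- The form of the rounded line. -/
theorem hZ_num {u be B' nu nu' m0 t t' N N' : ℝ} {y om s s' Y O e : Fin 2 → ℝ} (hu : 0 < u)
    (he : ∀ j, 0 < e j)
    (c1 : nu = m0 + t * be - ∑ j, s j * (y j + t * om j))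
    (c2 : nu' = m0 + t' * be - ∑ j, s' j * (y j + t' * om j))
    (t1 : 0 ≤ t) (t1' : t < 1) (t2 : 0 ≤ t') (t2' : t' < 1) (s1 : ∀ j, |s j / e j| ≤ 1)
    (s2 : ∀ j, |s' j / e j| ≤ 1)
    (n1 : |u * nu - N| ≤ 1) (n2 : |u * nu' - N'| ≤ 1) (n3 : |u * be - B'| ≤ 1)
    (n4 : ∀ j, |u * (e j * y j) - Y j| ≤ 1) (n5 : ∀ j, |u * (e j * om j) - O j| ≤ 1) :
    |(N' - N) - u * ((t' - t) * (B' / u) - ∑ j, (s' j / e j - s j / e j) * (Y j / u) -
      ∑ j, (s' j / e j * t' - s j / e j * t) * (O j / u))| ≤ 16 := by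
  have g : ∀ (a b : ℝ), |a| ≤ 1 → |b| ≤ 2 → |a * b| ≤ 2 := fun a b ha hb => by
    rw [abs_mul]
    nlinarith [abs_nonneg a, abs_nonneg b]
  have e0 := (he 0).ne'
  have e1 := (he 1).ne'
  have key : (N' - N) - u * ((t' - t) * (B' / u) - ∑ j, (s' j / e j - s j / e j) * (Y j / u) -
      ∑ j, (s' j / e j * t' - s j / e j * t) * (O j / u)) =
      -(u * nu' - N') + (u * nu - N) + (t' - t) * (u * be - B') -
        (u * (e 0 * y 0) - Y 0) * (s' 0 / e 0 - s 0 / e 0) -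
        (u * (e 1 * y 1) - Y 1) * (s' 1 / e 1 - s 1 / e 1) -
        (u * (e 0 * om 0) - O 0) * (s' 0 / e 0 * t' - s 0 / e 0 * t) -
        (u * (e 1 * om 1) - O 1) * (s' 1 / e 1 * t' - s 1 / e 1 * t) := by
    rw [c1, c2]
    simp only [Fin.sum_univ_two]
    field_simp
    ring
  rw [key]
  have d1 : ∀ j, |s' j / e j - s j / e j| ≤ 2 := fun j => by
    have := abs_sub (s' j / e j) (s j / e j)
    have := s1 j
    have := s2 j
    linarith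
  have d2 : ∀ j, |s' j / e j * t' - s j / e j * t| ≤ 2 := fun j => by
    have h1 := abs_sub (s' j / e j * t') (s j / e j * t)
    have h2 : |s' j / e j * t'| ≤ 1 := by
      rw [abs_mul]
      have := s2 j
      have h3 : |t'| ≤ 1 := by rw [abs_of_nonneg t2]; exact t2'.le
      nlinarith [abs_nonneg (s' j / e j), abs_nonneg t']
    have h4 : |s j / e j * t| ≤ 1 := by
      rw [abs_mul]
      have := s1 j
      have h3 : |t| ≤ 1 := by rw [abs_of_nonneg t1]; exact t1'.le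
      nlinarith [abs_nonneg (s j / e j), abs_nonneg t]
    linarith
  have f0 := g _ _ (n4 0) (d1 0)
  have f1 := g _ _ (n4 1) (d1 1)
  have f2 := g _ _ (n5 0) (d2 0)
  have f3 := g _ _ (n5 1) (d2 1)
  have f4 : |(t' - t) * (u * be - B')| ≤ 1 := by
    rw [abs_mul]
    have h3 : |t' - t| ≤ 1 := by rw [abs_le]; constructor <;> linarith
    nlinarith [abs_nonneg (t' - t), abs_nonneg (u * be - B')]
  rw [abs_le] at n1 n2 f0 f1 f2 f3 f4 ⊢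
  constructor <;> linarith

end Ocs

end Pool.K2S
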