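import Pool.Agent.H88.OCS.OcbC

/-!
# Theorem OCS for real variables, one value of the context
-/

set_option autoImplicit false

namespace Pool.K2S

open Finset Real
open Pool.Agent.H49.Ent Pool.Agent.H32.Dense Pool.STK Pool.KA

namespace Ocs

variable {Ω S T U V Λ Θ : Type} [Fintype Ω]

theorem ocs_one {B t : ℕ} {x₀ lm κ ϖ ι ε c ca : ℝ} {X₀ : ℕ}
    (hOC : ∀ (d : Pool.OCS.Dat) (lam : ℕ), d.OK (2 * B + 4) → X₀ ≤ d.X → (lam : ℝ) ≤ lm * d.X →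
      d.H1 ι → d.toR.H2 ι → d.H3 lam ι → d.H4 ca → d.toR.H5 c κ ϖ ∅ → d.H6 x₀ ε →
      d.H7 x₀ ε → False)
    {q : Ω → ℝ} {L : Ω → Λ} {T : Ω → Θ} {y om : Fin 2 → Ω → ℝ} {be m0 th : Ω → ℝ}
    {S : Fin 2 → Ω → ℝ} {E nu : Ω → ℝ}
    (hd : OCSData B q (fun _ => ()) L T y om be m0 th S E nu) {X : ℕ} (hX : X₀ ≤ X)
    (ht : 1 ≤ t) (htX : (t : ℝ) ≤ lm * X) {cK : ℝ}
    (hcK : cK = Real.log (2 * (2 ^ (2 * B) + 5) + 1))
    (hXι : 8 * cK ≤ ι * X) (htι : 16 * cK ≤ ι * t * Real.log 2)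
    (hXc : 8 * cK ≤ ca * X * Real.log 2)
    (h1 : Pool.KVA.MI q T L (fun _ => ()) ≤ ι * X)
    (h1' : (1 - ι) * X * Real.log 2 ≤ CH q (Uni.dg X th) L)
    (h2 : CH q (Uni.dg X nu) T -
      CH q (Uni.dg X nu) (fun ω => ((dg2 X y ω, (dg2 X om ω, Uni.dg X be ω)), T ω)) ≤ ι / 2 * X)
    (h3 : (2 - ι / 2) * X * Real.log 2 ≤ ∑ r ∈ range (X / t),
      CH q (dg2 ((r + 1) * t) (yt y om th))
        (fun ω => (dg2 (r * t) (yt y om th) ω, (dg2 (r * t) om ω, T ω))))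
    (h4 : 2 * ca * X * Real.log 2 ≤ CH q (Uni.dg X (om 0))
      (fun ω => ((dg2 X (yt y om th) ω, (Uni.dg X (cc om be S) ω, Uni.dg X (kk om E) ω)), T ω)))
    (h6 : Pool.KAF.Pr (dbl q L)
      {w | ∀ j, |S j w.1 - S j w.2| < 2 ^ (2 * B) * (2 : ℝ) ^ (-(x₀ * X))} ≤ ε)
    (h7 : Pool.KAF.Pr (dbl q L)
      {w | |E w.1 - E w.2| < 2 ^ (2 * B) * (2 : ℝ) ^ (-(x₀ * X))} ≤ ε) :
    ∃ j : ℕ, (j + 1) * ⌊κ * X⌋₊ ≤ X ∧ ∃ A : Ω → Prop, ϖ ≤ Pe q A ∧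
      (1 - c) * ⌊κ * X⌋₊ * Real.log 2 <
        CH (Pool.Agent.H49.Ent.cond q A True) (Uni.dg ((j + 1) * ⌊κ * X⌋₊) nu)
          (fun ω => (Uni.dg (j * ⌊κ * X⌋₊) nu ω, T ω)) := by
  classical
  by_contra hcon
  push Not at hcon
  have hq := hd.law
  have h0 := hq.nonneg
  have hl2 : 0 < Real.log 2 := Real.log_pos (by norm_num)
  have det : ∀ {x : Ω → ℝ}, Det q (fun ω => ((), L ω)) x → Det q L x := fun h ω ω' a b e =>
    h ω ω' a b (Prod.ext rfl e)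
  have detT : ∀ {x : Ω → ℝ}, Det q (fun ω => ((), T ω)) x → Det q T x := fun h ω ω' a b e =>
    h ω ω' a b (Prod.ext rfl e)
  choose fy hfy using fun j => Uni.exists_fun (det (hd.dy j))
  choose fom hfom using fun j => Uni.exists_fun (det (hd.dom j))
  obtain ⟨fbe, hfbe⟩ := Uni.exists_fun (det hd.dbe)
  obtain ⟨fm, hfm⟩ := Uni.exists_fun (det hd.dm0)
  obtain ⟨fth, hfth⟩ := Uni.exists_fun (detT hd.dth)
  choose fS hfS using fun j => Uni.exists_fun (detT (hd.dS j))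
  obtain ⟨fE, hfE⟩ := Uni.exists_fun (detT hd.dE)
  let D : Pool.OCS.Dat := mkO B q L T fy fom fbe fth fS fE nu X
  have h2X : (0 : ℝ) < 2 ^ X := by positivity
  have bnd : ∀ x : ℝ, |x - ⌊x⌋| ≤ 1 := fun x => by
    rw [abs_le]
    have := Int.floor_le x
    have := Int.lt_floor_add_one x
    constructor <;> linarith
  have exp0 : ∀ j, (0 : ℝ) < 2 ^ ex B j := fun j => by positivity
  -- the values on the support
  have eth : ∀ ω, 0 < q ω → D.th (T ω) = th ω := by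
    intro ω hω
    show (if 0 ≤ fth (T ω) ∧ fth (T ω) < 1 then fth (T ω) else 0) = th ω
    rw [← hfth ω hω, if_pos (hd.hth ω hω)]
  have eS : ∀ ω, 0 < q ω → ∀ j, D.S (T ω) j =
      S j ω / 2 ^ ex B j := by
    intro ω hω j
    show (if |fS j (T ω)| ≤ 2 ^ B then fS j (T ω) / 2 ^ ex B j else 0) = S j ω / 2 ^ ex B j
    rw [← hfS j ω hω, if_pos (hd.hS j ω hω)]
  have eE : ∀ ω, 0 < q ω → D.E (T ω) = E ω / 2 ^ B := by
    intro ω hω
    show (if |fE (T ω)| ≤ 2 ^ B then fE (T ω) / 2 ^ B else 0) = E ω / 2 ^ B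
    rw [← hfE ω hω, if_pos (hd.hE ω hω)]
  have ey : ∀ ω, 0 < q ω → ∀ j, D.yR (L ω) j =
      ⌊(2 : ℝ) ^ X * (2 ^ ex B j * y j ω)⌋ / 2 ^ X := by
    intro ω hω j
    show (⌊(2 : ℝ) ^ X * (2 ^ ex B j * fy j (L ω))⌋ : ℝ) / 2 ^ X = _
    rw [← hfy j ω hω]
  have eom : ∀ ω, 0 < q ω → ∀ j, D.omR (L ω) j =
      ⌊(2 : ℝ) ^ X * (2 ^ ex B j * om j ω)⌋ / 2 ^ X := by
    intro ω hω j
    show (⌊(2 : ℝ) ^ X * (2 ^ ex B j * fom j (L ω))⌋ : ℝ) / 2 ^ X = _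
    rw [← hfom j ω hω]
  have ebe : ∀ ω, 0 < q ω → D.beR (L ω) =
      ⌊(2 : ℝ) ^ X * be ω⌋ / 2 ^ X := by
    intro ω hω
    show (⌊(2 : ℝ) ^ X * fbe (L ω)⌋ : ℝ) / 2 ^ X = _
    rw [← hfbe ω hω]
  have s1 : ∀ ω, 0 < q ω → ∀ j, |S j ω / 2 ^ ex B j| ≤ 1 := by
    intro ω hω j
    rw [abs_div, abs_of_pos (exp0 j), div_le_one (exp0 j)]
    exact (hd.hS j ω hω).trans (le_ex B j)
  have s1E : ∀ ω, 0 < q ω → |E ω / 2 ^ B| ≤ 1 := by
    intro ω hω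
    rw [abs_div, abs_of_pos (by positivity : (0 : ℝ) < 2 ^ B), div_le_one (by positivity)]
    exact hd.hE ω hω
  -- near values in the units of the last digit
  have vom : ∀ ω, 0 < q ω → ∀ j, |(2 : ℝ) ^ X * (D.omR (L ω) j - 2 ^ ex B j * om j ω)| ≤ 1 := by
    intro ω hω j
    rw [eom ω hω j, mul_sub, mul_div_cancel₀ _ h2X.ne', abs_sub_comm]
    exact bnd _
  have vy : ∀ ω, 0 < q ω → ∀ j, |(2 : ℝ) ^ X * (D.yR (L ω) j - 2 ^ ex B j * y j ω)| ≤ 1 := by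
    intro ω hω j
    rw [ey ω hω j, mul_sub, mul_div_cancel₀ _ h2X.ne', abs_sub_comm]
    exact bnd _
  have vbe : ∀ ω, 0 < q ω → |(2 : ℝ) ^ X * (D.beR (L ω) - be ω)| ≤ 1 := by
    intro ω hω
    rw [ebe ω hω, mul_sub, mul_div_cancel₀ _ h2X.ne', abs_sub_comm]
    exact bnd _
  have vpt : ∀ ω, 0 < q ω → ∀ j,
      |(2 : ℝ) ^ X * (D.pt (T ω) (L ω) j - 2 ^ ex B j * yt y om th j ω)| ≤ 3 := by
    intro ω hω j
    have a1 := vy ω hω j
    have a2 := vom ω hω j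
    obtain ⟨t1, t2⟩ := hd.hth ω hω
    have e1 : (2 : ℝ) ^ X * (D.pt (T ω) (L ω) j - 2 ^ ex B j * yt y om th j ω) =
        2 ^ X * (D.yR (L ω) j - 2 ^ ex B j * y j ω) +
          th ω * (2 ^ X * (D.omR (L ω) j - 2 ^ ex B j * om j ω)) := by
      unfold Pool.OCS.Dat.pt yt
      rw [eth ω hω]
      ring
    rw [e1]
    have a3 : |th ω * (2 ^ X * (D.omR (L ω) j - 2 ^ ex B j * om j ω))| ≤ 1 * 1 := by
      rw [abs_mul]
      exact mul_le_mul (by rw [abs_of_nonneg t1]; exact t2.le) a2 (abs_nonneg _) zero_le_one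
    rw [abs_le] at a1 a3 ⊢
    constructor <;> linarith
  have vct : ∀ ω, 0 < q ω →
      |(2 : ℝ) ^ X * (D.ct (T ω) (L ω) - 2 ^ 0 * cc om be S ω)| ≤ 3 := by
    intro ω hω
    have a1 := vbe ω hω
    have e1 : (2 : ℝ) ^ X * (D.ct (T ω) (L ω) - 2 ^ 0 * cc om be S ω) =
        2 ^ X * (D.beR (L ω) - be ω) -
          (S 0 ω / 2 ^ ex B 0) * (2 ^ X * (D.omR (L ω) 0 - 2 ^ ex B 0 * om 0 ω)) -
          (S 1 ω / 2 ^ ex B 1) * (2 ^ X * (D.omR (L ω) 1 - 2 ^ ex B 1 * om 1 ω)) := by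
      unfold Pool.OCS.Dat.ct cc
      simp only [Fin.sum_univ_two]
      rw [eS ω hω 0, eS ω hω 1]
      have := (exp0 0).ne'
      have := (exp0 1).ne'
      field_simp
      ring
    rw [e1]
    have a2 : ∀ j, |(S j ω / 2 ^ ex B j) * (2 ^ X * (D.omR (L ω) j - 2 ^ ex B j * om j ω))| ≤
        1 * 1 := fun j => by
      rw [abs_mul]
      exact mul_le_mul (s1 ω hω j) (vom ω hω j) (abs_nonneg _) zero_le_one
    have a3 := a2 0
    have a4 := a2 1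
    rw [abs_le] at a1 a3 a4 ⊢
    constructor <;> linarith
  have vka : ∀ ω, 0 < q ω →
      |(2 : ℝ) ^ X * (D.ka (T ω) (L ω) - 2 ^ B * kk om E ω)| ≤ 3 := by
    intro ω hω
    have x0 : ex B 0 = 2 * B := by unfold ex; simp
    have x1 : ex B 1 = B := by unfold ex; simp
    have a1 := vom ω hω 1
    have a2 : |(E ω / 2 ^ B) * (2 ^ X * (D.omR (L ω) 0 - 2 ^ ex B 0 * om 0 ω))| ≤ 1 * 1 := by
      rw [abs_mul]
      exact mul_le_mul (s1E ω hω) (vom ω hω 0) (abs_nonneg _) zero_le_one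
    have e1 : (2 : ℝ) ^ X * (D.ka (T ω) (L ω) - 2 ^ B * kk om E ω) =
        2 ^ X * (D.omR (L ω) 1 - 2 ^ ex B 1 * om 1 ω) -
          (E ω / 2 ^ B) * (2 ^ X * (D.omR (L ω) 0 - 2 ^ ex B 0 * om 0 ω)) := by
      unfold Pool.OCS.Dat.ka kk
      rw [eE ω hω, x0, x1, two_mul, pow_add]
      have : (2 : ℝ) ^ B ≠ 0 := by positivity
      field_simp
      ring
    rw [e1]
    rw [abs_le] at a1 a2 ⊢
    constructor <;> linarith
  have vyy : ∀ ω, 0 < q ω → ∀ j, |((D.y (L ω) j : ℤ) : ℝ) - 2 ^ ex B j * Uni.dg X (y j) ω| ≤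
      2 ^ ex B j + 4 := by
    intro ω hω j
    refine (near_pair (a := 2 ^ X * (2 ^ ex B j * y j ω)) (b := 2 ^ X * y j ω) ?_).1.trans' ?_
    · have : (2 : ℝ) ^ X * (2 ^ ex B j * y j ω) - 2 ^ ex B j * (2 ^ X * y j ω) = 0 := by ring
      rw [this, abs_zero]
      norm_num
    · refine le_of_eq ?_
      show |((⌊(2 : ℝ) ^ X * (2 ^ ex B j * fy j (L ω))⌋ : ℤ) : ℝ) - 2 ^ ex B j *
        ((⌊(2 : ℝ) ^ X * y j ω⌋ : ℤ) : ℝ)| = _
      rw [← hfy j ω hω]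
  have voo : ∀ ω, 0 < q ω → ∀ j, |((D.om (L ω) j : ℤ) : ℝ) - 2 ^ ex B j * Uni.dg X (om j) ω| ≤
      2 ^ ex B j + 4 := by
    intro ω hω j
    refine (near_pair (a := 2 ^ X * (2 ^ ex B j * om j ω)) (b := 2 ^ X * om j ω) ?_).1.trans' ?_
    · have : (2 : ℝ) ^ X * (2 ^ ex B j * om j ω) - 2 ^ ex B j * (2 ^ X * om j ω) = 0 := by ring
      rw [this, abs_zero]
      norm_num
    · refine le_of_eq ?_
      show |((⌊(2 : ℝ) ^ X * (2 ^ ex B j * fom j (L ω))⌋ : ℤ) : ℝ) - 2 ^ ex B j *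
        ((⌊(2 : ℝ) ^ X * om j ω⌋ : ℤ) : ℝ)| = _
      rw [← hfom j ω hω]
  have hK0 : (0 : ℝ) ≤ 2 ^ (2 * B) + 5 := by positivity
  have hKe : ∀ j, (2 : ℝ) ^ ex B j + 4 ≤ 2 ^ (2 * B) + 5 := fun j => by
    have := ex_le B j
    linarith
  have hK5 : (5 : ℝ) ≤ 2 ^ (2 * B) + 5 := by
    have : (0 : ℝ) < 2 ^ (2 * B) := by positivity
    linarith
  have hcK0 : 0 ≤ cK := by
    rw [hcK]
    exact Real.log_nonneg (by linarith)
  have npt : ∀ p, p ≤ X → ∀ ω, 0 < q ω → ∀ j,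
      |(D.ptd p ω j : ℝ) - 2 ^ ex B j * Uni.dg p (yt y om th j) ω| ≤ 2 ^ (2 * B) + 5 ∧
      |(Uni.dg p (yt y om th j) ω : ℝ) - D.ptd p ω j / 2 ^ ex B j| ≤ 2 ^ (2 * B) + 5 := by
    intro p hp ω hω j
    have h := near_pair (a := 2 ^ p * D.pt (T ω) (L ω) j) (b := 2 ^ p * yt y om th j ω)
      (e := ex B j) (by
        have e1 : (2 : ℝ) ^ p * D.pt (T ω) (L ω) j - 2 ^ ex B j * (2 ^ p * yt y om th j ω) =
            2 ^ p * (D.pt (T ω) (L ω) j - 2 ^ ex B j * yt y om th j ω) := by ring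
        rw [e1]
        exact scale_le hp (vpt ω hω j))
    exact ⟨h.1.trans (hKe j), h.2.trans hK5⟩
  have nom : ∀ p, p ≤ X → ∀ ω, 0 < q ω → ∀ j,
      |(D.omd p (L ω) j : ℝ) - 2 ^ ex B j * Uni.dg p (om j) ω| ≤ 2 ^ (2 * B) + 5 ∧
      |(Uni.dg p (om j) ω : ℝ) - D.omd p (L ω) j / 2 ^ ex B j| ≤ 2 ^ (2 * B) + 5 := by
    intro p hp ω hω j
    have h := near_pair (a := 2 ^ p * D.omR (L ω) j) (b := 2 ^ p * om j ω)
      (e := ex B j) (by
        have e1 : (2 : ℝ) ^ p * D.omR (L ω) j - 2 ^ ex B j * (2 ^ p * om j ω) =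
            2 ^ p * (D.omR (L ω) j - 2 ^ ex B j * om j ω) := by ring
        rw [e1]
        exact (scale_le hp (vom ω hω j)).trans (by norm_num))
    exact ⟨h.1.trans (hKe j), h.2.trans hK5⟩
  -- the assumptions
  have hok : D.OK (2 * B + 4) := by
    have hA : (2 : ℝ) ^ (2 * B + 4) = 2 ^ (2 * B) * 16 := by rw [pow_add]; norm_num
    have sz : ∀ x : ℝ, 0 ≤ x → x < 1 → ∀ j, |(⌊(2 : ℝ) ^ X * (2 ^ ex B j * x)⌋ : ℝ) / 2 ^ X| ≤
        2 ^ (2 * B + 4) := by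
      intro x hx hx' j
      have a1 : (0 : ℝ) ≤ ⌊(2 : ℝ) ^ X * (2 ^ ex B j * x)⌋ := by
        exact_mod_cast Int.floor_nonneg.2 (by positivity)
      rw [abs_of_nonneg (div_nonneg a1 h2X.le), div_le_iff₀ h2X]
      refine (Int.floor_le _).trans ?_
      rw [mul_comm]
      refine mul_le_mul_of_nonneg_right ?_ h2X.le
      have a2 := ex_le B j
      have a3 := exp0 j
      rw [hA]
      nlinarith
    refine ⟨hq, ?_, ?_, ?_, ?_, ?_, ?_, ?_, ?_⟩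
    · intro ω hω j
      show |D.yR (L ω) j| ≤ _
      rw [ey ω hω j]
      exact sz _ (hd.hy j ω hω).1 (hd.hy j ω hω).2 j
    · intro ω hω j
      show |D.omR (L ω) j| ≤ _
      rw [eom ω hω j]
      exact sz _ (hd.hom j ω hω).1 (hd.hom j ω hω).2 j
    · intro ω hω
      show |D.beR (L ω)| ≤ _
      rw [ebe ω hω]
      obtain ⟨b1, b2⟩ := hd.hbe ω hω
      have a1 : (0 : ℝ) ≤ ⌊(2 : ℝ) ^ X * be ω⌋ := by
        exact_mod_cast Int.floor_nonneg.2 (by positivity)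
      rw [abs_of_nonneg (div_nonneg a1 h2X.le), div_le_iff₀ h2X]
      refine (Int.floor_le _).trans ?_
      rw [mul_comm]
      refine mul_le_mul_of_nonneg_right ?_ h2X.le
      rw [hA]
      have : (1 : ℝ) ≤ 2 ^ (2 * B) := one_le_pow₀ (by norm_num)
      linarith
    · intro ω ω' a b e
      have e1 : L ω = L ω' := (Prod.ext_iff.mp e).1
      have e2 : T ω = T ω' := (Prod.ext_iff.mp e).2
      show ⌊(2 : ℝ) ^ X * nu ω⌋ = ⌊(2 : ℝ) ^ X * nu ω'⌋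
      rw [hd.hnu ω a, hd.hnu ω' b]
      have f1 : ∀ j, y j ω = y j ω' := fun j => by rw [hfy j ω a, hfy j ω' b, e1]
      have f2 : ∀ j, om j ω = om j ω' := fun j => by rw [hfom j ω a, hfom j ω' b, e1]
      have f3 : ∀ j, S j ω = S j ω' := fun j => by rw [hfS j ω a, hfS j ω' b, e2]
      have f4 : be ω = be ω' := by rw [hfbe ω a, hfbe ω' b, e1]
      have f5 : m0 ω = m0 ω' := by rw [hfm ω a, hfm ω' b, e1]
      have f6 : th ω = th ω' := by rw [hfth ω a, hfth ω' b, e2]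
      simp only [f1, f2, f3, f4, f5, f6]
    · intro t'
      show 0 ≤ (if 0 ≤ fth t' ∧ fth t' < 1 then fth t' else 0) ∧
        (if 0 ≤ fth t' ∧ fth t' < 1 then fth t' else 0) < 1
      by_cases h : 0 ≤ fth t' ∧ fth t' < 1
      · rw [if_pos h]
        exact h
      · rw [if_neg h]
        exact ⟨le_rfl, one_pos⟩
    · intro t' j
      show |(if |fS j t'| ≤ 2 ^ B then fS j t' / 2 ^ ex B j else 0)| ≤ 1
      by_cases h : |fS j t'| ≤ 2 ^ B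
      · rw [if_pos h, abs_div, abs_of_pos (exp0 j), div_le_one (exp0 j)]
        exact h.trans (le_ex B j)
      · rw [if_neg h, abs_zero]
        exact zero_le_one
    · intro t'
      show |(if |fE t'| ≤ 2 ^ B then fE t' / 2 ^ B else 0)| ≤ 1
      by_cases h : |fE t'| ≤ 2 ^ B
      · rw [if_pos h, abs_div, abs_of_pos (by positivity : (0 : ℝ) < 2 ^ B),
          div_le_one (by positivity)]
        exact h
      · rw [if_neg h, abs_zero]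
        exact zero_le_one
    · intro ω ω' a b e
      have e1 : L ω = L ω' := e
      have c1 := hd.hnu ω a
      have c2 := hd.hnu ω' b
      have d1 : ∀ j, y j ω' = y j ω := fun j => by rw [hfy j ω a, hfy j ω' b, e1]
      have d2 : ∀ j, om j ω' = om j ω := fun j => by rw [hfom j ω a, hfom j ω' b, e1]
      have d3 : be ω' = be ω := by rw [hfbe ω a, hfbe ω' b, e1]
      have d4 : m0 ω' = m0 ω := by rw [hfm ω a, hfm ω' b, e1]
      simp only [d1, d2, d3, d4] at c2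
      obtain ⟨t1, t1'⟩ := hd.hth ω a
      obtain ⟨t2, t2'⟩ := hd.hth ω' b
      have key := hZ_num (e := fun j => (2 : ℝ) ^ ex B j) (y := fun j => y j ω)
        (om := fun j => om j ω) (s := fun j => S j ω) (s' := fun j => S j ω')
        (Y := fun j => ⌊(2 : ℝ) ^ X * (2 ^ ex B j * y j ω)⌋)
        (O := fun j => ⌊(2 : ℝ) ^ X * (2 ^ ex B j * om j ω)⌋) h2X exp0 c1 c2 t1 t1' t2 t2'
        (s1 ω a) (s1 ω' b) (bnd ((2 : ℝ) ^ X * nu ω)) (bnd ((2 : ℝ) ^ X * nu ω'))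
        (bnd ((2 : ℝ) ^ X * be ω)) (fun j => bnd _) (fun j => bnd _)
      have hA' : (16 : ℝ) ≤ 2 ^ (2 * B + 4) := by
        rw [hA]
        have : (1 : ℝ) ≤ 2 ^ (2 * B) := one_le_pow₀ (by norm_num)
        linarith
      refine le_trans (le_of_eq ?_) (key.trans hA')
      show |((⌊(2 : ℝ) ^ X * nu ω'⌋ : ℝ) - ⌊(2 : ℝ) ^ X * nu ω⌋) - 2 ^ X *
        ((D.th (T ω') - D.th (T ω)) * D.beR (L ω) -
        ∑ j, (D.S (T ω') j - D.S (T ω) j) * D.yR (L ω) j -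
        ∑ j, (D.S (T ω') j * D.th (T ω') - D.S (T ω) j * D.th (T ω)) * D.omR (L ω) j)| = _
      rw [eth ω a, eth ω' b, ebe ω a]
      simp only [eS ω a, eS ω' b, ey ω a, eom ω a]
  have hO : ∀ r s, r ≤ s → Det q (fun ω => D.omd s (L ω)) (fun ω => D.omd r (L ω)) := by
    intro r s hrs ω ω' _ _ e
    funext j
    show ⌊(2 : ℝ) ^ r * D.omR (L ω) j⌋ = ⌊(2 : ℝ) ^ r * D.omR (L ω') j⌋
    rw [← Uni.floor_row hrs, ← Uni.floor_row hrs]
    have e5 : ⌊(2 : ℝ) ^ s * D.omR (L ω) j⌋ = ⌊(2 : ℝ) ^ s * D.omR (L ω') j⌋ := congrFun e j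
    rw [e5]
  have hH2 : D.toR.H2 ι := by
    have k := core2 hq (N := Uni.dg X nu) (T := T) (Y := fun ω => D.y (L ω))
      (O := fun ω => D.om (L ω)) (Be := fun ω => D.be (L ω)) (Be' := Uni.dg X be)
      (Y' := dg2 X y) (O' := dg2 X om) (a₀ := 2 ^ ex B 0) (a₁ := 2 ^ ex B 1) (cK := cK)
      (K := 2 ^ (2 * B) + 5) (fun ω hω => by
        show ⌊(2 : ℝ) ^ X * fbe (L ω)⌋ = ⌊(2 : ℝ) ^ X * be ω⌋
        rw [← hfbe ω hω]) hK0 hcK
      (fun ω hω => (vyy ω hω 0).trans (hKe 0)) (fun ω hω => (vyy ω hω 1).trans (hKe 1))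
      (fun ω hω => (voo ω hω 0).trans (hKe 0)) (fun ω hω => (voo ω hω 1).trans (hKe 1))
    have k' : Pool.KVA.MI q (Uni.dg X nu) (fun ω => (D.y (L ω), D.om (L ω), D.be (L ω))) T ≤
        ι * X := by linarith
    exact k'
  have hH3 : D.H3 t ι := by
    have k := tiles h0 (T := T) D.ptd (fun s ω => D.omd s (L ω)) hO (X := X) (t := t)
      (fun r => CH q (dg2 ((r + 1) * t) (yt y om th))
        (fun ω => (dg2 (r * t) (yt y om th) ω, (dg2 (r * t) om ω, T ω)))) (cK := cK)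
      (fun r hr => by
        have hr0 : r * t ≤ X := (Nat.mul_le_mul_right t (by omega)).trans hr
        exact core3 hq hK0 hcK (a₀ := 2 ^ ex B 0) (a₁ := 2 ^ ex B 1)
          (fun ω hω => (npt _ hr0 ω hω 0).1) (fun ω hω => (npt _ hr0 ω hω 1).1)
          (fun ω hω => (nom _ hr0 ω hω 0).1) (fun ω hω => (nom _ hr0 ω hω 1).1)
          (fun ω hω => (npt _ hr ω hω 0).2) (fun ω hω => (npt _ hr ω hω 1).2))
    have k5 : ((X / t : ℕ) : ℝ) * (6 * cK) ≤ ι / 2 * X * Real.log 2 := by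
      have b1 : ((X / t : ℕ) : ℝ) * t ≤ X := by exact_mod_cast Nat.div_mul_le_self X t
      have b2 : (0 : ℝ) ≤ ((X / t : ℕ) : ℝ) := Nat.cast_nonneg _
      have ht0 : (0 : ℝ) < t := by exact_mod_cast ht
      have hι : 0 ≤ ι * Real.log 2 := by
        by_contra hneg
        push Not at hneg
        have : ι * t * Real.log 2 < 0 := by nlinarith
        linarith
      have b3 : ((X / t : ℕ) : ℝ) * (16 * cK) ≤ ((X / t : ℕ) : ℝ) * (ι * t * Real.log 2) :=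
        mul_le_mul_of_nonneg_left htι b2
      have b4 : ((X / t : ℕ) : ℝ) * (ι * t * Real.log 2) ≤ X * (ι * Real.log 2) := by
        have := mul_le_mul_of_nonneg_right b1 hι
        linarith
      have b5 : 0 ≤ ((X / t : ℕ) : ℝ) * cK := mul_nonneg b2 hcK0
      linarith
    have k' : (2 - ι) * X * Real.log 2 ≤ ∑ s ∈ range X,
        CH q (D.ptd (s + 1)) (fun ω => (D.ptd s ω, D.omd (s - t) (L ω), T ω)) := by linarith
    exact k'
  have nct : ∀ ω, 0 < q ω → |((⌊(2 : ℝ) ^ X * D.ct (T ω) (L ω)⌋ : ℤ) : ℝ) -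
      2 ^ 0 * Uni.dg X (cc om be S) ω| ≤ 2 ^ (2 * B) + 5 := by
    intro ω hω
    have h := (near_pair (a := 2 ^ X * D.ct (T ω) (L ω)) (b := 2 ^ X * cc om be S ω)
      (e := 0) (by
        have e1 : (2 : ℝ) ^ X * D.ct (T ω) (L ω) - 2 ^ 0 * (2 ^ X * cc om be S ω) =
          2 ^ X * (D.ct (T ω) (L ω) - 2 ^ 0 * cc om be S ω) := by ring
        rw [e1]
        exact vct ω hω)).1
    refine h.trans ?_
    norm_num
  have nka : ∀ ω, 0 < q ω → |((⌊(2 : ℝ) ^ X * D.ka (T ω) (L ω)⌋ : ℤ) : ℝ) -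
      2 ^ B * Uni.dg X (kk om E) ω| ≤ 2 ^ (2 * B) + 5 := by
    intro ω hω
    have h := (near_pair (a := 2 ^ X * D.ka (T ω) (L ω)) (b := 2 ^ X * kk om E ω)
      (e := B) (by
        have e1 : (2 : ℝ) ^ X * D.ka (T ω) (L ω) - 2 ^ B * (2 ^ X * kk om E ω) =
          2 ^ X * (D.ka (T ω) (L ω) - 2 ^ B * kk om E ω) := by ring
        rw [e1]
        exact vka ω hω)).1
    refine h.trans ?_
    have : (2 : ℝ) ^ B ≤ 2 ^ (2 * B) := pow_le_pow_right₀ (by norm_num) (by omega)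
    linarith
  have hH4 : D.H4 ca := by
    have k := core4 hq (T := T) (P := D.ptd X) (C := fun ω => ⌊(2 : ℝ) ^ X * D.ct (T ω) (L ω)⌋)
      (Kk := fun ω => ⌊(2 : ℝ) ^ X * D.ka (T ω) (L ω)⌋) (o := fun ω => D.omd X (L ω) 0)
      (Y' := dg2 X (yt y om th)) (C' := Uni.dg X (cc om be S)) (Kk' := Uni.dg X (kk om E))
      (o' := Uni.dg X (om 0)) (a₀ := 2 ^ ex B 0) (a₁ := 2 ^ ex B 1) (a₂ := 2 ^ 0) (a₃ := 2 ^ B)
      (cK := cK) (K := 2 ^ (2 * B) + 5) hK0 hcK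
      (fun ω hω => (npt X le_rfl ω hω 0).1) (fun ω hω => (npt X le_rfl ω hω 1).1) nct nka
      (fun ω hω => (nom X le_rfl ω hω 0).2)
    have k' : ca * X * Real.log 2 ≤ CH q (fun ω => D.omd X (L ω) 0)
        (fun ω => (T ω, (D.ptd X ω, ⌊(2 : ℝ) ^ X * D.ct (T ω) (L ω)⌋,
          ⌊(2 : ℝ) ^ X * D.ka (T ω) (L ω)⌋))) := by linarith
    exact k'
  have hH5 : D.toR.H5 c κ ϖ ∅ := by
    intro j _ hj A hA
    have k1 := hcon j hj (fun ω => ω ∈ A) hA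
    refine le_trans (le_of_eq ?_) k1
    have hj' : j * ⌊κ * X⌋₊ ≤ X := le_trans (Nat.mul_le_mul_right _ (Nat.le_succ j)) hj
    have r1 : D.toR.row ((j + 1) * ⌊κ * X⌋₊) = Uni.dg ((j + 1) * ⌊κ * X⌋₊) nu := by
      funext ω
      exact Uni.floor_row hj (nu ω)
    have r2 : D.toR.row (j * ⌊κ * X⌋₊) = Uni.dg (j * ⌊κ * X⌋₊) nu := by
      funext ω
      exact Uni.floor_row hj' (nu ω)
    show CH (Pool.Agent.H49.Ent.cond q (fun ω => ω ∈ A) True)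
      (D.toR.row ((j + 1) * ⌊κ * X⌋₊))
      (fun ω => (D.toR.row (j * ⌊κ * X⌋₊) ω, T ω)) = _
    rw [r1, r2]
  have hH6 : D.H6 x₀ ε := by
    refine le_trans ?_ h6
    refine Uni.Pr_le_of (fun w => glue_nonneg h0 h0 w) fun w hw hE => ?_
    obtain ⟨a, b, -⟩ := (glue_pos_iff h0 h0 w).1 hw
    have hE' : ‖D.S (T w.1) - D.S (T w.2)‖ < (2 : ℝ) ^ (-(x₀ * X)) := hE
    intro j
    have h1 : |S j w.1 / 2 ^ ex B j - S j w.2 / 2 ^ ex B j| < (2 : ℝ) ^ (-(x₀ * X)) := by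
      refine lt_of_le_of_lt ?_ hE'
      have h2 := norm_le_pi_norm (D.S (T w.1) - D.S (T w.2)) j
      rw [Pi.sub_apply, eS _ a j, eS _ b j, Real.norm_eq_abs] at h2
      exact h2
    rw [← sub_div, abs_div, abs_of_pos (exp0 j), div_lt_iff₀ (exp0 j)] at h1
    refine h1.trans_le ?_
    rw [mul_comm]
    exact mul_le_mul_of_nonneg_right (ex_le B j) (by positivity)
  have hH7 : D.H7 x₀ ε := by
    refine le_trans ?_ h7
    refine Uni.Pr_le_of (fun w => glue_nonneg h0 h0 w) fun w hw hE => ?_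
    obtain ⟨a, b, -⟩ := (glue_pos_iff h0 h0 w).1 hw
    have hE' : |D.E (T w.1) - D.E (T w.2)| < (2 : ℝ) ^ (-(x₀ * X)) := hE
    rw [eE _ a, eE _ b, ← sub_div, abs_div, abs_of_pos (by positivity : (0 : ℝ) < 2 ^ B),
      div_lt_iff₀ (by positivity)] at hE'
    show |E w.1 - E w.2| < 2 ^ (2 * B) * (2 : ℝ) ^ (-(x₀ * X))
    refine hE'.trans_le ?_
    rw [mul_comm]
    refine mul_le_mul_of_nonneg_right ?_ (by positivity)
    exact pow_le_pow_right₀ (by norm_num) (by omega)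
  refine hOC D t hok hX htX ⟨h1, h1'.trans (le_of_eq ?_)⟩ hH2 hH3 hH4 hH5 hH6 hH7
  refine Uni.CH_eq_of h0 (fun ω hω => ?_) fun _ _ => rfl
  show ⌊(2 : ℝ) ^ X * th ω⌋ = ⌊(2 : ℝ) ^ X * D.th (T ω)⌋
  rw [eth ω hω]

end Ocs

end Pool.K2S
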