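import Pool.Agent.H88.OCS.OcbA

/-!
# Theorem OCS for real variables: change of the digits
-/

set_option autoImplicit false

namespace Pool.K2S

open Finset Real
open Pool.Agent.H49.Ent Pool.Agent.H32.Dense Pool.STK Pool.KA

namespace Ocs

variable {Ω S T U V Λ Θ : Type} [Fintype Ω]

/-- The digits of a vector from the digits of another one. -/
theorem vec_of_pair {q : Ω → ℝ} (hq : IsLaw q) {Y : Ω → Fin 2 → ℤ} {Y' : Ω → ℤ × ℤ} {Z : Ω → T}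
    (hZ : Det q Z Y') {a₀ a₁ K : ℝ} (hK : 0 ≤ K)
    (n0 : ∀ ω, 0 < q ω → |(Y ω 0 : ℝ) - a₀ * (Y' ω).1| ≤ K)
    (n1 : ∀ ω, 0 < q ω → |(Y ω 1 : ℝ) - a₁ * (Y' ω).2| ≤ K) :
    CH q Y Z ≤ 2 * Real.log (2 * K + 1) := by
  have h1 := CH_vec hq.nonneg Y Z
  have h2 := Sel.CH_near hq (fun ω => Y ω 0) Z (fun ω => a₀ * (Y' ω).1)
    (fun ω ω' a b e => congrArg (fun z : ℤ × ℤ => a₀ * (z.1 : ℝ)) (hZ ω ω' a b e)) hK n0
  have h3 := Sel.CH_near hq (fun ω => Y ω 1) Z (fun ω => a₁ * (Y' ω).2)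
    (fun ω ω' a b e => congrArg (fun z : ℤ × ℤ => a₁ * (z.2 : ℝ)) (hZ ω ω' a b e)) hK n1
  linarith

theorem pair_of_vec {q : Ω → ℝ} (hq : IsLaw q) {Y : Ω → Fin 2 → ℤ} {Y' : Ω → ℤ × ℤ} {Z : Ω → T}
    (hZ : Det q Z Y) {a₀ a₁ K : ℝ} (hK : 0 ≤ K)
    (n0 : ∀ ω, 0 < q ω → |((Y' ω).1 : ℝ) - Y ω 0 / a₀| ≤ K)
    (n1 : ∀ ω, 0 < q ω → |((Y' ω).2 : ℝ) - Y ω 1 / a₁| ≤ K) :
    CH q Y' Z ≤ 2 * Real.log (2 * K + 1) := by
  have h1 := CH_subadd hq.nonneg (fun ω => (Y' ω).1) (fun ω => (Y' ω).2) Z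
  have h2 := Sel.CH_near hq (fun ω => (Y' ω).1) Z (fun ω => (Y ω 0 : ℝ) / a₀)
    (fun ω ω' a b e => congrArg (fun z : Fin 2 → ℤ => (z 0 : ℝ) / a₀) (hZ ω ω' a b e)) hK n0
  have h3 := Sel.CH_near hq (fun ω => (Y' ω).2) Z (fun ω => (Y ω 1 : ℝ) / a₁)
    (fun ω ω' a b e => congrArg (fun z : Fin 2 → ℤ => (z 1 : ℝ) / a₁) (hZ ω ω' a b e)) hK n1
  have h4 : CH q Y' Z = CH q (fun ω => ((Y' ω).1, (Y' ω).2)) Z := rfl
  linarith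

theorem core2 {q : Ω → ℝ} (hq : IsLaw q) {N : Ω → ℤ} {T : Ω → Θ} {Y O : Ω → Fin 2 → ℤ}
    {Be Be' : Ω → ℤ} {Y' O' : Ω → ℤ × ℤ} (eB : ∀ ω, 0 < q ω → Be ω = Be' ω) {a₀ a₁ K cK : ℝ}
    (hK : 0 ≤ K) (hcK : cK = Real.log (2 * K + 1))
    (y0 : ∀ ω, 0 < q ω → |(Y ω 0 : ℝ) - a₀ * (Y' ω).1| ≤ K)
    (y1 : ∀ ω, 0 < q ω → |(Y ω 1 : ℝ) - a₁ * (Y' ω).2| ≤ K)
    (o0 : ∀ ω, 0 < q ω → |(O ω 0 : ℝ) - a₀ * (O' ω).1| ≤ K)
    (o1 : ∀ ω, 0 < q ω → |(O ω 1 : ℝ) - a₁ * (O' ω).2| ≤ K) :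
    Pool.KVA.MI q N (fun ω => (Y ω, O ω, Be ω)) T ≤
      (CH q N T - CH q N (fun ω => ((Y' ω, (O' ω, Be' ω)), T ω))) + 4 * cK := by
  have h0 := hq.nonneg
  have k1 := CH_chain h0 N (fun ω => (Y ω, O ω, Be ω)) T
  have k2 : CH q (fun ω => ((Y ω, O ω, Be ω), T ω))
      (fun ω => ((Y' ω, (O' ω, Be' ω)), T ω)) ≤ 4 * cK := by
    have j0 : CH q (fun ω => ((Y ω, O ω, Be ω), T ω))
        (fun ω => ((Y' ω, (O' ω, Be' ω)), T ω)) ≤ CH q (fun ω => (Y ω, O ω, Be ω))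
        (fun ω => ((Y' ω, (O' ω, Be' ω)), T ω)) :=
      CH_add_det h0 (W := fun ω => (Y ω, O ω, Be ω)) (τ := T)
        (fun ω ω' _ _ e => (Prod.ext_iff.mp e).2)
    have j1 := CH_subadd h0 Y (fun ω => (O ω, Be ω))
      (fun ω => ((Y' ω, (O' ω, Be' ω)), T ω))
    have j2 : CH q (fun ω => (O ω, Be ω)) (fun ω => ((Y' ω, (O' ω, Be' ω)), T ω)) ≤
        CH q O (fun ω => ((Y' ω, (O' ω, Be' ω)), T ω)) :=
      CH_add_det h0 (W := O) (τ := Be) fun ω ω' a b e => by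
        rw [eB ω a, eB ω' b]
        exact (Prod.ext_iff.mp (Prod.ext_iff.mp (Prod.ext_iff.mp e).1).2).2
    have j3 : CH q Y (fun ω => ((Y' ω, (O' ω, Be' ω)), T ω)) ≤ 2 * cK := by
      rw [hcK]
      exact vec_of_pair hq (fun ω ω' _ _ e => (Prod.ext_iff.mp (Prod.ext_iff.mp e).1).1) hK y0 y1
    have j4 : CH q O (fun ω => ((Y' ω, (O' ω, Be' ω)), T ω)) ≤ 2 * cK := by
      rw [hcK]
      exact vec_of_pair hq (fun ω ω' _ _ e =>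
        (Prod.ext_iff.mp (Prod.ext_iff.mp (Prod.ext_iff.mp e).1).2).1) hK o0 o1
    linarith
  have k3 : CH q N N ≤ 0 := (CH_eq_zero h0 fun _ _ _ _ e => e).le
  have k4 := CH_swap h0 (A' := N) (B' := fun ω => ((Y' ω, (O' ω, Be' ω)), T ω)) (A := N)
    (B := fun ω => ((Y ω, O ω, Be ω), T ω)) k2 k3
  unfold Pool.KVA.MI
  rw [k1]
  linarith

theorem core3 {q : Ω → ℝ} (hq : IsLaw q) {T : Ω → Θ} {P P' O : Ω → Fin 2 → ℤ}
    {A' Y' O' : Ω → ℤ × ℤ} {a₀ a₁ K cK : ℝ} (hK : 0 ≤ K) (hcK : cK = Real.log (2 * K + 1))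
    (y0 : ∀ ω, 0 < q ω → |(P ω 0 : ℝ) - a₀ * (Y' ω).1| ≤ K)
    (y1 : ∀ ω, 0 < q ω → |(P ω 1 : ℝ) - a₁ * (Y' ω).2| ≤ K)
    (o0 : ∀ ω, 0 < q ω → |(O ω 0 : ℝ) - a₀ * (O' ω).1| ≤ K)
    (o1 : ∀ ω, 0 < q ω → |(O ω 1 : ℝ) - a₁ * (O' ω).2| ≤ K)
    (p0 : ∀ ω, 0 < q ω → |((A' ω).1 : ℝ) - P' ω 0 / a₀| ≤ K)
    (p1 : ∀ ω, 0 < q ω → |((A' ω).2 : ℝ) - P' ω 1 / a₁| ≤ K) :
    CH q A' (fun ω => (Y' ω, (O' ω, T ω))) ≤ CH q P' (fun ω => (P ω, (O ω, T ω))) + 6 * cK := by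
  have h0 := hq.nonneg
  have k1 : CH q (fun ω => (P ω, (O ω, T ω))) (fun ω => (Y' ω, (O' ω, T ω))) ≤ 4 * cK := by
    have j1 := CH_subadd h0 P (fun ω => (O ω, T ω)) (fun ω => (Y' ω, (O' ω, T ω)))
    have j2 : CH q (fun ω => (O ω, T ω)) (fun ω => (Y' ω, (O' ω, T ω))) ≤
        CH q O (fun ω => (Y' ω, (O' ω, T ω))) :=
      CH_add_det h0 (W := O) (τ := T) fun ω ω' _ _ e => (Prod.ext_iff.mp (Prod.ext_iff.mp e).2).2
    have j3 : CH q P (fun ω => (Y' ω, (O' ω, T ω))) ≤ 2 * cK := by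
      rw [hcK]
      exact vec_of_pair hq (fun ω ω' _ _ e => (Prod.ext_iff.mp e).1) hK y0 y1
    have j4 : CH q O (fun ω => (Y' ω, (O' ω, T ω))) ≤ 2 * cK := by
      rw [hcK]
      exact vec_of_pair hq (fun ω ω' _ _ e => (Prod.ext_iff.mp (Prod.ext_iff.mp e).2).1) hK o0 o1
    linarith
  have k2 : CH q A' P' ≤ 2 * cK := by
    rw [hcK]
    exact pair_of_vec hq (fun _ _ _ _ e => e) hK p0 p1
  have k3 := CH_swap h0 k1 k2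
  linarith

theorem core4 {q : Ω → ℝ} (hq : IsLaw q) {T : Ω → Θ} {P : Ω → Fin 2 → ℤ} {C Kk o : Ω → ℤ}
    {Y' : Ω → ℤ × ℤ} {C' Kk' o' : Ω → ℤ} {a₀ a₁ a₂ a₃ K cK : ℝ} (hK : 0 ≤ K)
    (hcK : cK = Real.log (2 * K + 1))
    (y0 : ∀ ω, 0 < q ω → |(P ω 0 : ℝ) - a₀ * (Y' ω).1| ≤ K)
    (y1 : ∀ ω, 0 < q ω → |(P ω 1 : ℝ) - a₁ * (Y' ω).2| ≤ K)
    (hc : ∀ ω, 0 < q ω → |(C ω : ℝ) - a₂ * C' ω| ≤ K)
    (hk : ∀ ω, 0 < q ω → |(Kk ω : ℝ) - a₃ * Kk' ω| ≤ K)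
    (ho : ∀ ω, 0 < q ω → |(o' ω : ℝ) - o ω / a₀| ≤ K) :
    CH q o' (fun ω => ((Y' ω, (C' ω, Kk' ω)), T ω)) ≤
      CH q o (fun ω => (T ω, (P ω, C ω, Kk ω))) + 5 * cK := by
  have h0 := hq.nonneg
  have k1 : CH q (fun ω => (T ω, (P ω, C ω, Kk ω)))
      (fun ω => ((Y' ω, (C' ω, Kk' ω)), T ω)) ≤ 4 * cK := by
    have j0 : CH q (fun ω => (T ω, (P ω, C ω, Kk ω)))
        (fun ω => ((Y' ω, (C' ω, Kk' ω)), T ω)) ≤ CH q (fun ω => (P ω, C ω, Kk ω))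
        (fun ω => ((Y' ω, (C' ω, Kk' ω)), T ω)) :=
      CH_det_add h0 (W := fun ω => (P ω, C ω, Kk ω)) (τ := T)
        (fun ω ω' _ _ e => (Prod.ext_iff.mp e).2)
    have j1 := CH_subadd h0 P (fun ω => (C ω, Kk ω)) (fun ω => ((Y' ω, (C' ω, Kk' ω)), T ω))
    have j2 : CH q P (fun ω => ((Y' ω, (C' ω, Kk' ω)), T ω)) ≤ 2 * cK := by
      rw [hcK]
      exact vec_of_pair hq (fun ω ω' _ _ e => (Prod.ext_iff.mp (Prod.ext_iff.mp e).1).1) hK y0 y1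
    have j3 : CH q (fun ω => (C ω, Kk ω)) (fun ω => ((Y' ω, (C' ω, Kk' ω)), T ω)) ≤ 2 * cK := by
      rw [hcK]
      refine CH_pair_near hq (g₀ := fun ω => a₂ * C' ω) (g₁ := fun ω => a₃ * Kk' ω) ?_ ?_ hK hc hk
      · intro ω ω' _ _ e
        have e1 : C' ω = C' ω' := (Prod.ext_iff.mp (Prod.ext_iff.mp (Prod.ext_iff.mp e).1).2).1
        exact congrArg (fun z : ℤ => a₂ * (z : ℝ)) e1
      · intro ω ω' _ _ e
        have e1 : Kk' ω = Kk' ω' := (Prod.ext_iff.mp (Prod.ext_iff.mp (Prod.ext_iff.mp e).1).2).2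
        exact congrArg (fun z : ℤ => a₃ * (z : ℝ)) e1
    linarith
  have k2 : CH q o' o ≤ cK := by
    rw [hcK]
    exact Sel.CH_near hq _ _ (fun ω => (o ω : ℝ) / a₀)
      (fun ω ω' _ _ e => congrArg (fun z : ℤ => (z : ℝ) / a₀) e) hK ho
  have k3 := CH_swap h0 k1 k2
  linarith

/-- The sum over the tiles. -/
theorem tiles {q : Ω → ℝ} (h0 : ∀ ω, 0 ≤ q ω) {T : Ω → Θ} (P O : ℕ → Ω → Fin 2 → ℤ)
    (hO : ∀ r s, r ≤ s → Det q (O s) (O r)) {X t : ℕ} (f : ℕ → ℝ) {cK : ℝ}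
    (hf : ∀ r, (r + 1) * t ≤ X → f r ≤ CH q (P ((r + 1) * t))
      (fun ω => (P (r * t) ω, (O (r * t) ω, T ω))) + 6 * cK) :
    ∑ r ∈ range (X / t), f r ≤
      ∑ s ∈ range X, CH q (P (s + 1)) (fun ω => (P s ω, O (s - t) ω, T ω)) +
        ((X / t : ℕ) : ℝ) * (6 * cK) := by
  have hdiv : X / t * t ≤ X := Nat.div_mul_le_self X t
  have k1 : ∀ r ∈ range (X / t), f r ≤
      ∑ i ∈ range t, CH q (P (r * t + i + 1))
        (fun ω => (P (r * t + i) ω, O (r * t + i - t) ω, T ω)) + 6 * cK := by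
    intro r hr
    rw [Finset.mem_range] at hr
    have hr1 : (r + 1) * t ≤ X := (Nat.mul_le_mul_right t (by omega)).trans hdiv
    have a1 := hf r hr1
    have a2 := tile h0 P (fun ω => (O (r * t) ω, T ω)) (r * t) t
    have a3 : (r + 1) * t = r * t + t := by ring
    rw [a3] at a1
    have a4 : ∑ i ∈ range t, CH q (P (r * t + i + 1))
        (fun ω => (P (r * t + i) ω, (O (r * t) ω, T ω))) ≤
        ∑ i ∈ range t, CH q (P (r * t + i + 1))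
        (fun ω => (P (r * t + i) ω, O (r * t + i - t) ω, T ω)) := by
      refine Finset.sum_le_sum fun i hi => ?_
      rw [Finset.mem_range] at hi
      refine CH_mono_cond h0 fun ω ω' a b e => ?_
      have e1 : P (r * t + i) ω = P (r * t + i) ω' := (Prod.ext_iff.mp e).1
      have e2 : O (r * t) ω = O (r * t) ω' := (Prod.ext_iff.mp (Prod.ext_iff.mp e).2).1
      have e3 : T ω = T ω' := (Prod.ext_iff.mp (Prod.ext_iff.mp e).2).2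
      have hs : r * t + i - t ≤ r * t := by omega
      exact Prod.ext e1 (Prod.ext (hO _ _ hs ω ω' a b e2) e3)
    linarith
  have k2 := Finset.sum_le_sum k1
  rw [Finset.sum_add_distrib, Finset.sum_const, Finset.card_range, nsmul_eq_mul] at k2
  have k3 : ∀ n : ℕ, ∑ r ∈ range n, ∑ i ∈ range t, CH q (P (r * t + i + 1))
        (fun ω => (P (r * t + i) ω, O (r * t + i - t) ω, T ω)) =
      ∑ s ∈ range (n * t), CH q (P (s + 1)) (fun ω => (P s ω, O (s - t) ω, T ω)) := by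
    intro n
    induction n with
    | zero => simp
    | succ n ih => rw [Finset.sum_range_succ, ih, Nat.succ_mul, Finset.sum_range_add]
  rw [k3] at k2
  have k4 : ∑ s ∈ range (X / t * t), CH q (P (s + 1)) (fun ω => (P s ω, O (s - t) ω, T ω)) ≤
      ∑ s ∈ range X, CH q (P (s + 1)) (fun ω => (P s ω, O (s - t) ω, T ω)) := by
    refine Finset.sum_le_sum_of_subset_of_nonneg ?_ fun s _ _ => CH_nonneg h0 _ _
    intro s hs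
    rw [Finset.mem_range] at hs ⊢
    omega
  linarith

end Ocs

end Pool.K2S
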